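import Pool.Agent.U334.TC.LinF

set_option autoImplicit false
set_option linter.unusedSectionVars false
set_option linter.unusedVariables false

/-! # A rational one-parameter group: from vector fields over `ℂ` to matrices over `ℚ` -/

namespace Pool.Agent.U334.TC

open MvPolynomial Module

variable {σ : Type} [Fintype σ] [DecidableEq σ]

theorem coeff_LD {K : Type} [CommRing K] (A : Matrix σ σ K) (f : MvPolynomial σ K) (m : σ →₀ ℕ) :
    coeff m (LD A f) = ∑ l, ∑ k, A l k * coeff m (X k * pderiv l f) := by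
  rw [LD_eq, coeff_sum]
  refine Finset.sum_congr rfl fun l _ => ?_
  rw [Finset.sum_mul, coeff_sum]
  refine Finset.sum_congr rfl fun k _ => ?_
  rw [mul_assoc, coeff_C_mul]

/-- the vector field may be chosen over `ℚ` -/
theorem descent {ι : Type} (f : ι → MvPolynomial σ ℚ) (A : Matrix σ σ ℂ) (htr : A.trace = 0)
    (h : ∀ j, LD A (map (algebraMap ℚ ℂ) (f j)) = map (algebraMap ℚ ℂ) (f j)) :
    ∃ M : Matrix σ σ ℚ, M.trace = 0 ∧ ∀ j, LD M (f j) = f j := by
  obtain ⟨π, hπ⟩ := LinearMap.exists_leftInverse_of_injective (Algebra.linearMap ℚ ℂ)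
    (LinearMap.ker_eq_bot.2 (algebraMap ℚ ℂ).injective)
  have h1 : ∀ q : ℚ, π (algebraMap ℚ ℂ q) = q := fun q => LinearMap.congr_fun hπ q
  have h2 : ∀ (a : ℂ) (q : ℚ), π (a * algebraMap ℚ ℂ q) = π a * q := by
    intro a q
    rw [mul_comm, ← Algebra.smul_def, map_smul, smul_eq_mul, mul_comm]
  refine ⟨Matrix.of fun l k => π (A l k), ?_, fun j => ?_⟩
  · have h3 := congrArg π htr
    rw [Matrix.trace, map_sum, map_zero] at h3
    exact h3
  · ext m
    have h3 := congrArg (coeff m) (h j)
    rw [coeff_LD] at h3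
    have h4 : ∀ l k, coeff m (X k * pderiv l (map (algebraMap ℚ ℂ) (f j))) =
        algebraMap ℚ ℂ (coeff m (X k * pderiv l (f j))) := by
      intro l k
      rw [pderiv_map, ← coeff_map, map_mul, map_X]
    simp only [h4, coeff_map] at h3
    have h5 := congrArg π h3
    simp only [map_sum, h2, h1] at h5
    rw [coeff_LD]
    exact h5

/-- **The eigenvectors.** -/
theorem eigen (M : Matrix σ σ ℂ) : ∃ (α : σ → ℂ) (h h' N : Matrix σ σ ℂ), h * h' = 1 ∧ h' * h = 1 ∧
    M * h = h * (Matrix.diagonal α + N) ∧ IsNilpotent N ∧ ∀ i k, N i k ≠ 0 → α i = α k := by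
  classical
  set e := Pi.basisFun ℂ σ with he
  set L : End ℂ (σ → ℂ) := Matrix.toLin' M with hL
  obtain ⟨n, hn_adj, s, hns, hn_nil, hs_ss, hX_ns⟩ := L.exists_isNilpotent_isSemisimple
  replace hns : Commute n s :=
    Algebra.commute_of_mem_adjoin_singleton_of_commute hns
      (Algebra.commute_of_mem_adjoin_self hn_adj).symm
  let eigenDecomp := DirectSum.isInternal_submodule_of_iSupIndep_of_iSup_eq_top
    s.eigenspaces_iSupIndep hs_ss.iSup_eigenspace_eq_top
  let I := (ν : ℂ) × Fin (finrank ℂ (s.eigenspace ν))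
  let v : Basis I ℂ (σ → ℂ) := eigenDecomp.collectedBasis fun μ ↦ finBasis ℂ (s.eigenspace μ)
  have hsv (i : I) : s (v i) = i.1 • v i :=
    End.mem_eigenspace_iff.mp (eigenDecomp.collectedBasis_mem _ i)
  let eq : I ≃ σ := v.indexEquiv e
  let b : Basis σ ℂ (σ → ℂ) := v.reindex eq
  let α : σ → ℂ := fun i => (eq.symm i).1
  have hb : ∀ i, s (b i) = α i • b i := by
    intro i
    change s (v.reindex eq i) = (eq.symm i).1 • v.reindex eq i
    rw [Basis.reindex_apply, hsv]
  have hS : LinearMap.toMatrix b b s = Matrix.diagonal α := by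
    ext i k
    rw [LinearMap.toMatrix_apply, hb, map_smul, Basis.repr_self, Finsupp.smul_apply,
      Matrix.diagonal_apply, Finsupp.single_apply, smul_eq_mul]
    by_cases hik : i = k
    · subst hik; simp
    · rw [if_neg (fun h => hik h.symm), if_neg hik, mul_zero]
  have hmm : LinearMap.toMatrix b b L = Matrix.diagonal α + LinearMap.toMatrix b b n := by
    rw [hX_ns, map_add, hS, add_comm]
  refine ⟨α, e.toMatrix b, b.toMatrix e, LinearMap.toMatrix b b n,
    Basis.toMatrix_mul_toMatrix_flip _ _, Basis.toMatrix_mul_toMatrix_flip _ _, ?_, ?_, ?_⟩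
  · rw [← hmm, basis_toMatrix_mul_linearMap_toMatrix]
    have h1 := linearMap_toMatrix_mul_basis_toMatrix (b := b) (b' := e) (c' := e) (f := L)
    rw [← h1]
    congr 1
    rw [he, LinearMap.toMatrix_eq_toMatrix', hL, LinearMap.toMatrix'_toLin']
  · obtain ⟨k, hk⟩ := hn_nil
    refine ⟨k, ?_⟩
    have h1 := map_pow (LinearMap.toMatrixAlgEquiv b) n k
    rw [hk, map_zero] at h1
    exact h1.symm
  · intro i k hik
    have h1 : LinearMap.toMatrix b b (n * s) = LinearMap.toMatrix b b (s * n) :=
      congrArg _ hns.eq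
    rw [LinearMap.toMatrix_mul, LinearMap.toMatrix_mul, hS] at h1
    have h2 := congrFun (congrFun h1 i) k
    rw [Matrix.mul_diagonal, Matrix.diagonal_mul] at h2
    have h3 : (α i - α k) * LinearMap.toMatrix b b n i k = 0 := by linear_combination -h2
    exact sub_eq_zero.1 ((mul_eq_zero.1 h3).resolve_right hik)

/-- polynomials in the matrix -/
theorem aeval_block (α : σ → ℂ) (N : Matrix σ σ ℂ) (n : ℕ) (hN : N ^ n = 0)
    (hb : ∀ i k, N i k ≠ 0 → α i = α k) (q : Polynomial ℂ) (c : σ → ℂ)
    (hq : ∀ i, (Polynomial.X - Polynomial.C (α i)) ^ n ∣ q - Polynomial.C (c i)) :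
    Polynomial.aeval (Matrix.diagonal α + N) q = Matrix.diagonal c := by
  set J := Matrix.diagonal α + N with hJ
  -- on the vectors supported on one eigenspace
  have hsupp : ∀ (a : ℂ) (x : σ → ℂ), (∀ k, x k ≠ 0 → α k = a) →
      (J - a • (1 : Matrix σ σ ℂ)).mulVec x = N.mulVec x ∧ ∀ k, N.mulVec x k ≠ 0 → α k = a := by
    intro a x hx
    constructor
    · have h1 : (Matrix.diagonal α).mulVec x = a • x := by
        funext k
        rw [Matrix.mulVec_diagonal, Pi.smul_apply, smul_eq_mul]
        by_cases h : x k = 0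
        · rw [h]; ring
        · rw [hx k h]
      rw [Matrix.sub_mulVec, hJ, Matrix.add_mulVec, h1, Matrix.smul_mulVec, Matrix.one_mulVec]
      abel
    · intro k hk
      rw [Matrix.mulVec, dotProduct] at hk
      obtain ⟨l, -, hl⟩ := Finset.exists_ne_zero_of_sum_ne_zero hk
      have h1 := left_ne_zero_of_mul hl
      have h2 := right_ne_zero_of_mul hl
      rw [hb k l h1, hx l h2]
  have hpow : ∀ (j : ℕ) (a : ℂ) (x : σ → ℂ), (∀ k, x k ≠ 0 → α k = a) →
      ((J - a • (1 : Matrix σ σ ℂ)) ^ j).mulVec x = (N ^ j).mulVec x := by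
    intro j a
    induction j with
    | zero => intro x _; rw [pow_zero, pow_zero]
    | succ j ih =>
      intro x hx
      obtain ⟨h1, h2⟩ := hsupp a x hx
      rw [pow_succ, pow_succ, ← Matrix.mulVec_mulVec, ← Matrix.mulVec_mulVec, h1]
      exact ih _ h2
  have hcol : ∀ i, (Polynomial.aeval J q).mulVec (Pi.single i 1) = c i • Pi.single i 1 := by
    intro i
    obtain ⟨g, hg⟩ := hq i
    have h1 : q = g * (Polynomial.X - Polynomial.C (α i)) ^ n + Polynomial.C (c i) := by
      linear_combination hg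
    have h2 : Polynomial.aeval J (Polynomial.X - Polynomial.C (α i)) =
        J - (α i) • (1 : Matrix σ σ ℂ) := by
      rw [map_sub, Polynomial.aeval_X, Polynomial.aeval_C, Algebra.algebraMap_eq_smul_one]
    rw [h1, map_add, map_mul, map_pow, h2, Polynomial.aeval_C, Matrix.add_mulVec,
      ← Matrix.mulVec_mulVec, hpow n (α i) _ (fun k hk => ?_), hN, Matrix.zero_mulVec,
      Matrix.mulVec_zero, zero_add, Algebra.algebraMap_eq_smul_one, Matrix.smul_mulVec,
      Matrix.one_mulVec]
    by_contra hne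
    apply hk
    rw [Pi.single_eq_of_ne]
    rintro rfl
    exact hne rfl
  ext i k
  have h1 := congrFun (hcol k) i
  rw [Matrix.mulVec_single_one, Matrix.col_apply, Pi.smul_apply, smul_eq_mul] at h1
  rw [h1, Matrix.diagonal_apply, Pi.single_apply]
  by_cases hik : i = k
  · subst hik; simp
  · simp [hik]

/-- the normalized trace -/
noncomputable def nt (P : Polynomial ℚ) : ℚ := -P.nextCoeff / P.natDegree

/-- **Linear relations are preserved by the normalized trace.** -/
theorem trace_rel (α : σ → ℂ) (hα : ∀ i, IsIntegral ℚ (α i)) (n : σ → ℕ) (q : ℚ)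
    (h : ∑ i, (n i : ℂ) * α i = (q : ℂ)) : ∑ i, (n i : ℚ) * nt (minpoly ℚ (α i)) = q := by
  classical
  set L := IntermediateField.adjoin ℚ (Set.range α) with hL
  have hfd : FiniteDimensional ℚ L := by
    rw [hL]
    apply IntermediateField.finiteDimensional_adjoin
    rintro _ ⟨i, rfl⟩
    exact hα i
  have hmem : ∀ i, α i ∈ L := fun i =>
    IntermediateField.subset_adjoin ℚ _ ⟨i, rfl⟩
  let a : σ → L := fun i => ⟨α i, hmem i⟩
  have hmp : ∀ i, minpoly ℚ (a i) = minpoly ℚ (α i) := fun i => by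
    exact (minpoly.algebraMap_eq (algebraMap L ℂ).injective (a i)).symm
  have htr : ∀ i, Algebra.trace ℚ L (a i) = (Module.finrank ℚ L : ℚ) * nt (minpoly ℚ (α i)) := by
    intro i
    rw [trace_eq_finrank_mul_minpoly_nextCoeff, hmp, nt]
    have h1 : Module.finrank ℚ (IntermediateField.adjoin ℚ {a i}) = (minpoly ℚ (α i)).natDegree := by
      rw [← hmp]
      exact IntermediateField.adjoin.finrank (Algebra.IsIntegral.isIntegral (a i))
    have h2 := Module.finrank_mul_finrank ℚ (IntermediateField.adjoin ℚ {a i}) L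
    rw [h1] at h2
    have h3 : ((minpoly ℚ (α i)).natDegree : ℚ) ≠ 0 := by
      exact_mod_cast (minpoly.natDegree_pos (hα i)).ne'
    rw [← h2]
    push_cast
    field_simp
  have h1 : ∑ i, (n i : ℚ) • a i = (algebraMap ℚ L q) := by
    apply (algebraMap L ℂ).injective
    rw [map_sum]
    simp only [Algebra.smul_def, map_mul]
    rw [← IsScalarTower.algebraMap_apply ℚ L ℂ]
    refine Eq.trans ?_ (Eq.trans h ?_)
    · refine Finset.sum_congr rfl fun i _ => ?_
      rw [← IsScalarTower.algebraMap_apply ℚ L ℂ]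
      change (algebraMap ℚ ℂ (n i : ℚ)) * α i = _
      rw [map_natCast]
    · exact (eq_ratCast (algebraMap ℚ ℂ) q).symm
  have h2 := congrArg (Algebra.trace ℚ L) h1
  rw [map_sum, Algebra.trace_algebraMap] at h2
  simp only [map_smul, htr, smul_eq_mul] at h2
  have h3 : (Module.finrank ℚ L : ℚ) ≠ 0 := by
    exact_mod_cast (Module.finrank_pos (R := ℚ) (M := L)).ne'
  apply mul_left_cancel₀ h3
  rw [Finset.mul_sum]
  rw [nsmul_eq_mul] at h2
  rw [← h2]
  refine Finset.sum_congr rfl fun i _ => ?_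
  ring

/-- **Interpolation.** -/
theorem crt (α : σ → ℂ) (hα : ∀ i, IsIntegral ℚ (α i)) (n : ℕ) (r : Polynomial ℚ → ℚ) :
    ∃ q : Polynomial ℚ, ∀ i, (Polynomial.X - Polynomial.C (α i)) ^ n ∣
      q.map (algebraMap ℚ ℂ) - Polynomial.C ((r (minpoly ℚ (α i)) : ℚ) : ℂ) := by
  classical
  set T := Set.range (fun i => minpoly ℚ (α i)) with hT
  have hfin : Finite T := Set.finite_range _
  have hI : Pairwise (Function.onFun IsCoprime
      (fun P : T => Ideal.span {(P : Polynomial ℚ) ^ n})) := by
    rintro ⟨P, i, rfl⟩ ⟨Q, k, rfl⟩ hPQ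
    change IsCoprime _ _
    rw [Ideal.isCoprime_span_singleton_iff]
    apply IsCoprime.pow
    have h1 := minpoly.irreducible (hα i)
    have h2 := minpoly.irreducible (hα k)
    rw [(h1.coprime_iff_not_dvd)]
    intro hd
    apply hPQ
    have h3 := (h1.dvd_irreducible_iff_associated h2).1 hd
    have h4 := Polynomial.eq_of_monic_of_associated (minpoly.monic (hα i)) (minpoly.monic (hα k)) h3
    exact Subtype.ext h4
  obtain ⟨q, hq⟩ := Ideal.exists_forall_sub_mem_ideal hI
    (fun P : T => Polynomial.C (r (P : Polynomial ℚ)))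
  refine ⟨q, fun i => ?_⟩
  have h1 := hq ⟨minpoly ℚ (α i), i, rfl⟩
  rw [Ideal.mem_span_singleton] at h1
  have h2 := map_dvd (Polynomial.mapRingHom (algebraMap ℚ ℂ)) h1
  rw [map_sub, map_pow, Polynomial.coe_mapRingHom, Polynomial.map_C] at h2
  refine dvd_trans (pow_dvd_pow_of_dvd ?_ n) h2
  rw [Polynomial.dvd_iff_isRoot, Polynomial.IsRoot.def, Polynomial.eval_map, ← Polynomial.aeval_def,
    minpoly.aeval]

theorem block_pow (α : σ → ℂ) (N : Matrix σ σ ℂ) (n : ℕ) (hN : N ^ n = 0)
    (hb : ∀ i k, N i k ≠ 0 → α i = α k) (i : σ) :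
    (Polynomial.aeval (Matrix.diagonal α + N) ((Polynomial.X - Polynomial.C (α i)) ^ n)).mulVec
      (Pi.single i 1) = 0 := by
  set J := Matrix.diagonal α + N with hJ
  have hsupp : ∀ (a : ℂ) (x : σ → ℂ), (∀ k, x k ≠ 0 → α k = a) →
      (J - a • (1 : Matrix σ σ ℂ)).mulVec x = N.mulVec x ∧ ∀ k, N.mulVec x k ≠ 0 → α k = a := by
    intro a x hx
    constructor
    · have h1 : (Matrix.diagonal α).mulVec x = a • x := by
        funext k
        rw [Matrix.mulVec_diagonal, Pi.smul_apply, smul_eq_mul]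
        by_cases h : x k = 0
        · rw [h]; ring
        · rw [hx k h]
      rw [Matrix.sub_mulVec, hJ, Matrix.add_mulVec, h1, Matrix.smul_mulVec, Matrix.one_mulVec]
      abel
    · intro k hk
      rw [Matrix.mulVec, dotProduct] at hk
      obtain ⟨l, -, hl⟩ := Finset.exists_ne_zero_of_sum_ne_zero hk
      have h1 := left_ne_zero_of_mul hl
      have h2 := right_ne_zero_of_mul hl
      rw [hb k l h1, hx l h2]
  have hpow : ∀ (j : ℕ) (a : ℂ) (x : σ → ℂ), (∀ k, x k ≠ 0 → α k = a) →
      ((J - a • (1 : Matrix σ σ ℂ)) ^ j).mulVec x = (N ^ j).mulVec x := by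
    intro j a
    induction j with
    | zero => intro x _; rw [pow_zero, pow_zero]
    | succ j ih =>
      intro x hx
      obtain ⟨h1, h2⟩ := hsupp a x hx
      rw [pow_succ, pow_succ, ← Matrix.mulVec_mulVec, ← Matrix.mulVec_mulVec, h1]
      exact ih _ h2
  have h2 : Polynomial.aeval J (Polynomial.X - Polynomial.C (α i)) =
      J - (α i) • (1 : Matrix σ σ ℂ) := by
    rw [map_sub, Polynomial.aeval_X, Polynomial.aeval_C, Algebra.algebraMap_eq_smul_one]
  rw [map_pow, h2, hpow n (α i) _ (fun k hk => ?_), hN, Matrix.zero_mulVec]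
  by_contra hne
  apply hk
  rw [Pi.single_eq_of_ne]
  rintro rfl
  exact hne rfl

theorem map_sbm {K L : Type} [CommRing K] [CommRing L] (φ : K →+* L) (B : Matrix σ σ K)
    (f : MvPolynomial σ K) : map φ (sbm B f) = sbm (B.map φ) (map φ f) := by
  induction f using MvPolynomial.induction_on with
  | C a => rw [sbm_C, map_C, sbm_C]
  | add f g hf hg => rw [map_add, map_add, map_add, map_add, hf, hg]
  | mul_X f i hf =>
    rw [map_mul, map_mul, hf, map_mul, map_X, map_mul, sbm_X, sbm_X, map_sum]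
    simp only [map_mul, map_C, map_X, Matrix.map_apply]

theorem map_LD {K L : Type} [CommRing K] [CommRing L] (φ : K →+* L) (A : Matrix σ σ K)
    (f : MvPolynomial σ K) : map φ (LD A f) = LD (A.map φ) (map φ f) := by
  rw [LD_eq, LD_eq, map_sum]
  refine Finset.sum_congr rfl fun l _ => ?_
  rw [map_mul, map_sum, pderiv_map]
  simp only [map_mul, map_C, map_X, Matrix.map_apply]

theorem prod_zpow_sum {K : Type} [Field K] (c : K) (hc : c ≠ 0) (S : Finset σ) (z : σ → ℤ) :
    ∏ i ∈ S, c ^ z i = c ^ ∑ i ∈ S, z i := by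
  induction S using Finset.induction_on with
  | empty => simp
  | insert a s ha ih => rw [Finset.prod_insert ha, Finset.sum_insert ha, zpow_add₀ hc, ih]

/-- **The rational one-parameter group.** Let `v` be a linear vector field over `ℂ` of trace zero
with `v(f_j) = f_j`. Then for every rational number `c ≠ 0` there is a rational matrix `t` of
determinant one with `f_j(t x) = c ^ D f_j(x)`, `D > 0`. -/
theorem split_matrix {ι : Type} (f : ι → MvPolynomial σ ℚ) (A : Matrix σ σ ℂ) (htr : A.trace = 0)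
    (h : ∀ j, LD A (map (algebraMap ℚ ℂ) (f j)) = map (algebraMap ℚ ℂ) (f j)) (c : ℚ)
    (hc : c ≠ 0) : ∃ (D : ℕ) (t : Matrix σ σ ℚ), 0 < D ∧ t.det = 1 ∧
      ∀ j, sbm t (f j) = C (c ^ D) * f j := by
  classical
  obtain ⟨M, hM0, hM⟩ := descent f A htr h
  set MC : Matrix σ σ ℂ := M.map (algebraMap ℚ ℂ) with hMC
  obtain ⟨α, g, g', N, hg, hg', hMg, hN, hb⟩ := eigen MC
  obtain ⟨n, hn⟩ := id hN
  set J := Matrix.diagonal α + N with hJ
  -- polynomials in `M`
  have hpoly : ∀ q : Polynomial ℂ, Polynomial.aeval MC q * g = g * Polynomial.aeval J q := by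
    intro q
    induction q using Polynomial.induction_on' with
    | add p q hp hq => rw [map_add, map_add, add_mul, mul_add, hp, hq]
    | monomial k a =>
      rw [Polynomial.aeval_monomial, Polynomial.aeval_monomial]
      have h1 : MC ^ k * g = g * J ^ k := by
        induction k with
        | zero => rw [pow_zero, pow_zero, one_mul, mul_one]
        | succ k ih => rw [pow_succ, mul_assoc, hMg, ← mul_assoc, ih, mul_assoc, ← pow_succ]
      rw [mul_assoc, h1, Algebra.commutes, mul_assoc, Algebra.commutes]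
  -- the eigenvalues are algebraic
  have hα : ∀ i, IsIntegral ℚ (α i) := by
    intro i
    set x := g.mulVec (Pi.single i 1) with hx
    have hx0 : x ≠ 0 := by
      intro h0
      have h1 : g'.mulVec x = Pi.single i 1 := by
        rw [hx, Matrix.mulVec_mulVec, hg', Matrix.one_mulVec]
      rw [h0, Matrix.mulVec_zero] at h1
      have h2 := congrFun h1 i
      rw [Pi.single_eq_same] at h2
      exact zero_ne_one h2
    have h1 : (Polynomial.aeval MC ((Polynomial.X - Polynomial.C (α i)) ^ n)).mulVec x = 0 := by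
      rw [hx, Matrix.mulVec_mulVec, hpoly, ← Matrix.mulVec_mulVec, block_pow α N n hn hb i,
        Matrix.mulVec_zero]
    have h2 := Matrix.exists_mulVec_eq_zero_iff.1 ⟨x, hx0, h1⟩
    rw [map_pow, Matrix.det_pow, map_sub, Polynomial.aeval_X, Polynomial.aeval_C] at h2
    have h3 := eq_zero_of_pow_eq_zero h2
    have h4 : MC.charpoly.eval (α i) = 0 := by
      rw [Matrix.eval_charpoly]
      have h5 : Matrix.scalar σ (α i) - MC = -(MC - algebraMap ℂ (Matrix σ σ ℂ) (α i)) := by
        rw [neg_sub]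
        rfl
      rw [h5, Matrix.det_neg, h3, mul_zero]
    rw [hMC, Matrix.charpoly_map, Polynomial.eval_map] at h4
    exact ⟨M.charpoly, M.charpoly_monic, h4⟩
  -- the exponents
  set τ : σ → ℚ := fun i => nt (minpoly ℚ (α i)) with hτ
  set D : ℕ := ∏ i, (τ i).den with hD
  have hDpos : 0 < D := Finset.prod_pos fun i _ => (τ i).pos
  have hz : ∀ i, (((((D : ℚ) * τ i).num : ℤ)) : ℚ) = (D : ℚ) * τ i := by
    intro i
    obtain ⟨k, hk⟩ := Finset.dvd_prod_of_mem (fun i => (τ i).den) (Finset.mem_univ i)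
    have h1 : (D : ℚ) * τ i = (((k : ℤ) * (τ i).num : ℤ) : ℚ) := by
      have h2 : ((τ i).den : ℚ) * τ i = (τ i).num := by
        rw [mul_comm]
        exact Rat.mul_den_eq_num _
      have h3 : (D : ℚ) = ((τ i).den : ℚ) * (k : ℚ) := by
        rw [hD]
        exact_mod_cast hk
      rw [h3]
      push_cast
      linear_combination (k : ℚ) * h2
    rw [h1, Rat.num_intCast]
  set z : σ → ℤ := fun i => ((D : ℚ) * τ i).num with hzdef
  obtain ⟨q, hq⟩ := crt α hα n (fun P => c ^ ((D : ℚ) * nt P).num)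
  have hq' : ∀ i, (Polynomial.X - Polynomial.C (α i)) ^ n ∣
      q.map (algebraMap ℚ ℂ) - Polynomial.C ((c : ℂ) ^ z i) := by
    intro i
    have h1 := hq i
    rw [Rat.cast_zpow] at h1
    exact h1
  have hT := aeval_block α N n hn hb (q.map (algebraMap ℚ ℂ)) (fun i => (c : ℂ) ^ z i) hq'
  set T : Matrix σ σ ℂ := Matrix.diagonal fun i => (c : ℂ) ^ z i with hTdef
  set t : Matrix σ σ ℚ := Polynomial.aeval M q with ht
  have htC : t.map (algebraMap ℚ ℂ) = Polynomial.aeval MC (q.map (algebraMap ℚ ℂ)) := by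
    have h1 := Polynomial.map_aeval_eq_aeval_map (φ := algebraMap ℚ ℂ)
      (ψ := (algebraMap ℚ ℂ).mapMatrix (m := σ)) (RingHom.ext_rat _ _) q M
    exact h1
  have htg : t.map (algebraMap ℚ ℂ) * g = g * T := by
    rw [htC, hpoly, hT]
  have hcC : (c : ℂ) ≠ 0 := by exact_mod_cast hc
  have hsum0 : ∑ i, z i = 0 := by
    have h1 : ∑ i, ((1 : ℕ) : ℂ) * α i = ((0 : ℚ) : ℂ) := by
      have h2 : MC.trace = (Matrix.diagonal α).trace + N.trace := by
        have h3 : MC = g * J * g' := by
          rw [← hMg, mul_assoc, hg, mul_one]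
        rw [h3, Matrix.trace_mul_comm, ← mul_assoc, hg', one_mul, hJ, Matrix.trace_add]
      have h3 : N.trace = 0 := (Matrix.isNilpotent_trace_of_isNilpotent hN).eq_zero
      have h4 : MC.trace = 0 := by
        have h5 := congrArg (algebraMap ℚ ℂ) hM0
        rw [Matrix.trace, map_sum, map_zero] at h5
        exact h5
      rw [h4, h3, add_zero, Matrix.trace_diagonal] at h2
      rw [Rat.cast_zero, h2]
      simp
    have h2 := trace_rel α hα (fun _ => 1) 0 h1
    have h3 : ((∑ i, z i : ℤ) : ℚ) = 0 := by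
      push_cast
      rw [Finset.sum_congr rfl fun i _ => hz i, ← Finset.mul_sum]
      simp only [Nat.cast_one, one_mul] at h2
      rw [h2, mul_zero]
    exact_mod_cast h3
  refine ⟨D, t, hDpos, ?_, fun j => ?_⟩
  · apply (algebraMap ℚ ℂ).injective
    have h1 : (t.map (algebraMap ℚ ℂ)).det = T.det := by
      have h2 := congrArg Matrix.det htg
      rw [Matrix.det_mul, Matrix.det_mul, mul_comm] at h2
      have h3 : g.det ≠ 0 := by
        intro h0
        have h4 := congrArg Matrix.det hg
        rw [Matrix.det_mul, h0, zero_mul, Matrix.det_one] at h4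
        exact zero_ne_one h4
      exact mul_left_cancel₀ h3 h2
    have h2 : (t.map (algebraMap ℚ ℂ)).det = algebraMap ℚ ℂ t.det :=
      ((algebraMap ℚ ℂ).map_det t).symm
    rw [← h2, h1, hTdef, Matrix.det_diagonal, prod_zpow_sum _ hcC, hsum0, zpow_zero, map_one]
  · set F := sbm g (map (algebraMap ℚ ℂ) (f j)) with hF
    have h1 : LD J F = F := by
      rw [hF, LD_sbm MC J g hMg.symm, hMC, ← map_LD, hM j]
    have h2 : sbm T F = C ((c : ℂ) ^ D) * F := by
      ext m
      rw [coeff_sbm_diag, coeff_C_mul]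
      by_cases hm : coeff m F = 0
      · rw [hm, mul_zero, mul_zero]
      · congr 1
        have h3 := weight_one α N hN hb F h1 m hm
        have h4 := trace_rel α hα (fun i => m i) 1 (by rw [Rat.cast_one]; exact h3)
        have h5 : ∑ i, z i * (m i : ℤ) = D := by
          have h6 : ((∑ i, z i * (m i : ℤ) : ℤ) : ℚ) = D := by
            push_cast
            have h7 : ∀ i, ((z i : ℤ) : ℚ) * (m i : ℚ) = (D : ℚ) * ((m i : ℚ) * τ i) := by
              intro i
              rw [hz i]
              ring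
            rw [Finset.sum_congr rfl fun i _ => h7 i, ← Finset.mul_sum, h4, mul_one]
          exact_mod_cast h6
        have h6 : ∀ i, ((c : ℂ) ^ z i) ^ (m i) = (c : ℂ) ^ (z i * (m i : ℤ)) := by
          intro i
          rw [zpow_mul, zpow_natCast]
        rw [Finset.prod_congr rfl fun i _ => h6 i, prod_zpow_sum _ hcC, h5, zpow_natCast]
    have h3 : sbm g (sbm (t.map (algebraMap ℚ ℂ)) (map (algebraMap ℚ ℂ) (f j))) =
        sbm g (C ((c : ℂ) ^ D) * map (algebraMap ℚ ℂ) (f j)) := by
      rw [sbm_sbm, htg, ← sbm_sbm, map_mul, sbm_C]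
      exact h2
    have h4 := congrArg (sbm g') h3
    have hinv : ∀ G : MvPolynomial σ ℂ, sbm g' (sbm g G) = G := fun G => by
      rw [sbm_sbm, hg, sbm_one]
    rw [hinv, hinv, ← map_sbm] at h4
    apply map_injective _ (algebraMap ℚ ℂ).injective
    rw [h4, map_mul, map_C]
    congr 2
    rw [map_pow]
    rfl

end Pool.Agent.U334.TC
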