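import Pool.Agent.N127.PP.Defs
import Pool.Agent.U184.Defs3

set_option autoImplicit false

/-! # The closure of the ternary forms with weighted homogeneous singularities and of the
semi-invariant cones -/

namespace Pool.Agent.U334.TC

open MvPolynomial Pool.Agent.W574.SM Pool.Agent.Y230.PS Pool.Agent.Y230.TH Pool.Agent.R852.PP
open Pool.Agent.N127.PB Pool.Agent.U184

/-- There is a linear vector field `v = ∑_l v_l ∂_l` over `ℂ` of trace (divergence) zero with
`v(f_j) = f_j` for all `j`. -/
def HasField {r : ℕ} (f : Fin r → MvPolynomial (Fin 3) ℂ) : Prop :=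
  ∃ v : Fin 3 → MvPolynomial (Fin 3) ℂ, (∀ l, (v l).IsHomogeneous 1) ∧
    ∑ l, pderiv l (v l) = 0 ∧ ∀ j, ∑ l, v l * pderiv l (f j) = f j

/-- The forms `f_j` are semi-invariant, with the same nontrivial character, for a one-parameter
group of diagonal matrices of determinant one: there are integers `a_0, ..., a_n` with sum zero and
an integer `e ≠ 0` such that `∑_l a_l m_l = e` for the exponents `m` of all monomials of all
`f_j`. -/
def SemiInv {n r : ℕ} (f : Fin r → MvPolynomial (Fin (n + 1)) ℚ) : Prop :=
  ∃ (a : Fin (n + 1) → ℤ) (e : ℤ), ∑ l, a l = 0 ∧ e ≠ 0 ∧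
    ∀ (j : Fin r) (m : Fin (n + 1) →₀ ℕ), coeff m (f j) ≠ 0 → ∑ l, a l * (m l : ℤ) = e

/-- `-3 / d` is not a root of the Bernstein-Sato polynomials of the charts `x_i = 1` of the
ternary form `f`. -/
def ChartsOff (f : MvPolynomial (Fin 3) ℚ) (d : ℕ) : Prop :=
  ∀ i : Fin 3, ∃ b : Polynomial ℂ,
    IsFunctionalEq (fun _ : Fin 1 => map (algebraMap ℚ ℂ) (dehQ i f)) b ∧
    b.eval (-((2 : ℕ) + 1 : ℂ) / d) ≠ 0

/-- `GoodW strict A`: the ideal generated by the family `A` is obtained by sums and products in
disjoint sets of variables and by cones from the following ideals: the nonzero ideals of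
`ℚ[x, y]`; the unit ideals; the ideals generated by forms of the same degree in three variables
which satisfy one of the conditions `RootCond`; the ideals generated by forms of the same degree in three variables
with a member without resonance (`NRMember`); the principal ideals generated by a form in three
variables such that the plane projective curve `f = 0` has only weighted homogeneous singularities;
the ideals generated by forms `f_j` of the same degree in three variables such that `v(f_j) = f_j`
for a linear vector field `v` of trace zero. The cones are the ideals generated by forms in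
`n + 1` variables which contain `n + 1` algebraically independent forms, or are semi-invariant
(`SemiInv`), such that the ideals of the charts are in the class. If `strict = true`, then there is
an additional condition on the number `-(n + 1) / d` in some of the cases. -/
inductive GoodW (strict : Bool) : FamQ → Prop
  /-- a nonzero ideal of `ℚ[x, y]` -/
  | plane (r : ℕ) (f : Fin r → MvPolynomial (Fin 2) ℚ) (hf : ∃ j, f j ≠ 0) :
      GoodW strict ⟨Fin 2, Fin r, f⟩
  /-- the unit ideal -/
  | free (A : FamQ) (g : A.ι → MvPolynomial A.σ ℚ) (h : ∑ j, g j * A.f j = 1) : GoodW strict A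
  /-- the sum of two ideals in disjoint sets of variables -/
  | sum (A B : FamQ) (hA : GoodW strict A) (hB : GoodW strict B) : GoodW strict (A.sum B)
  /-- the product of two ideals in disjoint sets of variables -/
  | mul (A B : FamQ) (hA : GoodW strict A) (hB : GoodW strict B) : GoodW strict (A.mul B)
  /-- the variables and the generators may be indexed differently -/
  | equiv (A B : FamQ) (i : A.σ ≃ B.σ) (k : A.ι ≃ B.ι) (h : ∀ j, B.f (k j) = rename i (A.f j))
      (hA : GoodW strict A) : GoodW strict B
  /-- forms of degree `d > 0` in `x_0, ..., x_n`, of which `n + 1` are algebraically independent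
  (their Jacobian determinant is not zero), such that the ideals of the charts `x_i = 1` are in the
  class -/
  | cone (n r d : ℕ) (hd : 0 < d) (f : Fin r → MvPolynomial (Fin (n + 1)) ℚ)
      (hf : ∀ j, (f j).IsHomogeneous d) (e : Fin (n + 1) → Fin r)
      (he : (Matrix.of fun s t => pderiv s (f (e t))).det ≠ 0)
      (h : ∀ i, GoodW strict ⟨Fin n, Fin r, fun j => dehQ i (f j)⟩)
      (hs : strict = true → ∀ i : Fin (n + 1), ∃ b : Polynomial ℂ,
        IsFunctionalEq (fun j => map (algebraMap ℚ ℂ) (dehQ i (f j))) b ∧
        b.eval (-((n : ℂ) + 1) / d) ≠ 0) :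
      GoodW strict ⟨Fin (n + 1), Fin r, f⟩
  /-- forms of degree `d > 0` in `x_0, x_1, x_2`, such that the linear system over `ℂ` which they
  span satisfies one of the conditions `RootCond` -/
  | pencil (r d : ℕ) (hd : 0 < d) (f : Fin r → MvPolynomial (Fin 3) ℚ)
      (hf : ∀ j, (f j).IsHomogeneous d)
      (hc : RootCond (Submodule.span ℂ (Set.range fun j => map (algebraMap ℚ ℂ) (f j))) d)
      (hs : strict = true → ∀ i : Fin 3, ∃ b : Polynomial ℂ,
        IsFunctionalEq (fun j => map (algebraMap ℚ ℂ) (dehQ i (f j))) b ∧
        b.eval (-((2 : ℕ) + 1 : ℂ) / d) ≠ 0) :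
      GoodW strict ⟨Fin 3, Fin r, f⟩
  /-- forms of degree `d > 0` in three variables, such that a form `g = G(f)` in them defines a
  plane projective curve with weighted homogeneous singularities without resonance, and there is
  no linear vector field `v` of trace zero with `v(g) = g` (`NRMember`) -/
  | sys (r d : ℕ) (hd : 0 < d) (f : Fin r → MvPolynomial (Fin 3) ℚ)
      (hf : ∀ j, (f j).IsHomogeneous d) (hc : NRMember (fun j => map (algebraMap ℚ ℂ) (f j)) d)
      (hs : strict = true → ∀ i : Fin 3, ∃ b : Polynomial ℂ,
        IsFunctionalEq (fun j => map (algebraMap ℚ ℂ) (dehQ i (f j))) b ∧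
        b.eval (-((2 : ℕ) + 1 : ℂ) / d) ≠ 0) :
      GoodW strict ⟨Fin 3, Fin r, f⟩
  /-- a form of degree `d > 0` in three variables such that the plane projective curve `f = 0`,
  which may be reducible and non-reduced, has only weighted homogeneous singularities -/
  | tern (d : ℕ) (f : MvPolynomial (Fin 3) ℚ) (hw : WHForm (map (algebraMap ℚ ℂ) f) d)
      (hs : strict = true → NoField (map (algebraMap ℚ ℂ) f) → ChartsOff f d) :
      GoodW strict ⟨Fin 3, Fin 1, fun _ => f⟩
  /-- forms of degree `d > 0` in three variables, not all zero, such that `v(f_j) = f_j` for a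
  linear vector field `v` of trace zero -/
  | field (r d : ℕ) (hd : 0 < d) (f : Fin r → MvPolynomial (Fin 3) ℚ)
      (hf : ∀ j, (f j).IsHomogeneous d) (hne : ∃ j, f j ≠ 0)
      (hv : HasField fun j => map (algebraMap ℚ ℂ) (f j)) : GoodW strict ⟨Fin 3, Fin r, f⟩
  /-- semi-invariant forms of degree `d > 0` in `x_0, ..., x_n`, not all zero, such that the ideals
  of the charts `x_i = 1` are in the class -/
  | torus (n r d : ℕ) (hd : 0 < d) (f : Fin r → MvPolynomial (Fin (n + 1)) ℚ)
      (hf : ∀ j, (f j).IsHomogeneous d) (hne : ∃ j, f j ≠ 0) (hv : SemiInv f)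
      (h : ∀ i, GoodW strict ⟨Fin n, Fin r, fun j => dehQ i (f j)⟩) :
      GoodW strict ⟨Fin (n + 1), Fin r, f⟩

/-- Two classes of ideals, given by generators: `PTW strict false A` for ideals and
`PTW strict true A` for principal ideals (hypersurfaces). They are the smallest classes with the
following properties. -/
inductive PTW (strict : Bool) : Bool → FamQ → Prop
  /-- the ideals in `GoodW` -/
  | good (A : FamQ) (h : GoodW strict A) : PTW strict false A
  /-- the monomial ideals, in any number of variables -/
  | mono (σ ι : Type) [Fintype σ] [Fintype ι] [Nonempty ι] (v : ι → σ →₀ ℕ) :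
      PTW strict false ⟨σ, ι, fun j => monomial (v j) 1⟩
  /-- the plane curves -/
  | curve (g : MvPolynomial (Fin 2) ℚ) (hg : g ≠ 0) :
      PTW strict true ⟨Fin 2, Fin 1, fun _ => g⟩
  /-- a form of degree `d > 0` in three variables such that the plane projective curve `f = 0` has
  only weighted homogeneous singularities; if `d = 3`, then `v(f) = f` for a linear vector field
  `v` of trace zero -/
  | surf (d : ℕ) (f : MvPolynomial (Fin 3) ℚ) (hw : WHForm (map (algebraMap ℚ ℂ) f) d)
      (h3 : d = 3 → ¬ NoField (map (algebraMap ℚ ℂ) f))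
      (hs : strict = true → NoField (map (algebraMap ℚ ℂ) f) → ChartsOff f d) :
      PTW strict true ⟨Fin 3, Fin 1, fun _ => f⟩
  /-- a nonzero form of degree `d > 0` in three variables such that `v(f) = f` for a linear vector
  field `v` of trace zero -/
  | fieldS (d : ℕ) (hd : 0 < d) (f : MvPolynomial (Fin 3) ℚ) (hf : f.IsHomogeneous d)
      (hne : f ≠ 0) (hv : ¬ NoField (map (algebraMap ℚ ℂ) f)) :
      PTW strict true ⟨Fin 3, Fin 1, fun _ => f⟩
  /-- a hypersurface is a principal ideal -/
  | hyp (A : FamQ) (h : PTW strict true A) : PTW strict false A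
  /-- the powers of a hypersurface are principal ideals -/
  | pow (σ : Type) [Fintype σ] (g : MvPolynomial σ ℚ) (k : ℕ) (hk : k ≠ 0)
      (h : PTW strict true ⟨σ, Fin 1, fun _ => g⟩) : PTW strict false ⟨σ, Fin 1, fun _ => g ^ k⟩
  /-- the sum of two ideals in disjoint sets of variables -/
  | sum (A B : FamQ) (hA : PTW strict false A) (hB : PTW strict false B) :
      PTW strict false (A.sum B)
  /-- the product of two ideals, or of two polynomials, in disjoint sets of variables -/
  | mul (c : Bool) (A B : FamQ) (hA : PTW strict c A) (hB : PTW strict c B) :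
      PTW strict c (A.mul B)
  /-- the polynomial `∑ y_j f_j(x)` -/
  | univ (A : FamQ) (hA : PTW strict false A) : PTW strict true A.univ
  /-- the products of powers `h(x) ∏_t (∑_j y_{t, j} f_{t, j}(x)) ^ a_t`, if the ideal
  `h ∏_t (f_{t, j})_j ^ a_t` is in the class -/
  | form (σ : Type) [Fintype σ] (m : ℕ) (r a : Fin m → ℕ) (hm : 0 < m) (ha : ∀ t, 0 < a t)
      (h : MvPolynomial σ ℚ)
      (f : (t : Fin m) → Fin (r t) → MvPolynomial σ ℚ)
      (hA : PTW strict false (genQ a h f)) : PTW strict true (formQ a h f)
  /-- the Thom-Sebastiani sum `∑ y_j f_j(x) + g(z)` -/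
  | ts (A : FamQ) (τ : Type) [Fintype τ] (g : MvPolynomial τ ℚ) (hA : PTW strict false A)
      (hg : PTW strict true ⟨τ, Fin 1, fun _ => g⟩) : PTW strict true (tsum A τ g)
  /-- variables which do not occur may be dropped -/
  | drop (σ κ : Type) [Fintype σ] [Fintype κ] (g : MvPolynomial σ ℚ)
      (h : PTW strict true ⟨σ ⊕ κ, Fin 1, fun _ => rename Sum.inl g⟩) :
      PTW strict true ⟨σ, Fin 1, fun _ => g⟩
  /-- the variables and the generators may be indexed differently -/
  | equiv (c : Bool) (A B : FamQ) (i : A.σ ≃ B.σ) (k : A.ι ≃ B.ι)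
      (h : ∀ j, B.f (k j) = rename i (A.f j)) (hA : PTW strict c A) : PTW strict c B

end Pool.Agent.U334.TC
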