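import Pool.Agent.U334.TC.Alg
import Pool.Agent.Y230.PS.Auto

set_option autoImplicit false
set_option linter.unusedSectionVars false
set_option linter.unusedVariables false

/-! # Functional equations and linear changes of coordinates -/

namespace Pool.Agent.U334.TC

open MvPolynomial Pool.Agent.Y230.PS Pool.Agent.W574.SM

variable {σ : Type} [Fintype σ] [DecidableEq σ] {ι : Type} [Fintype ι] [DecidableEq ι]

theorem pderiv_sbm {K : Type} [CommRing K] (B : Matrix σ σ K) (i : σ) (q : MvPolynomial σ K) :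
    pderiv i (sbm B q) = ∑ l, C (B l i) * sbm B (pderiv l q) := by
  induction q using MvPolynomial.induction_on with
  | C a =>
    rw [sbm_C, pderiv_C]
    simp
  | add q q' h h' =>
    rw [map_add, map_add, h, h', ← Finset.sum_add_distrib]
    refine Finset.sum_congr rfl fun l _ => ?_
    rw [map_add, map_add, mul_add]
  | mul_X q j h =>
    have h1 : pderiv i (sbm B (X j)) = C (B j i) := by
      rw [sbm_X, map_sum, Finset.sum_eq_single i]
      · rw [Derivation.leibniz, pderiv_X_self, pderiv_C, smul_zero, add_zero, smul_eq_mul, mul_one]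
      · intro b _ hb
        rw [Derivation.leibniz, pderiv_X_of_ne hb, pderiv_C, smul_zero, smul_zero, add_zero]
      · simp
    rw [map_mul, Derivation.leibniz, h1, h, smul_eq_mul, smul_eq_mul]
    have h2 : ∀ l, C (B l i) * sbm B (pderiv l (q * X j)) =
        C (B l i) * (sbm B q * sbm B (pderiv l (X j))) +
          sbm B (X j) * (C (B l i) * sbm B (pderiv l q)) := by
      intro l
      rw [Derivation.leibniz, smul_eq_mul, smul_eq_mul, map_add, map_mul, map_mul]
      ring
    rw [Finset.sum_congr rfl fun l _ => h2 l, Finset.sum_add_distrib, ← Finset.mul_sum]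
    congr 1
    rw [Finset.sum_eq_single j]
    · rw [pderiv_X_self, map_one]
      ring
    · intro b _ hb
      rw [pderiv_X_of_ne hb.symm, map_zero, mul_zero, mul_zero]
    · simp

/-- linear substitutions as automorphisms -/
noncomputable def sbE (B B' : Matrix σ σ ℂ) (h : B * B' = 1) (h' : B' * B = 1) :
    MvPolynomial σ ℂ ≃ₐ[ℂ] MvPolynomial σ ℂ :=
  AlgEquiv.ofAlgHom (sbm B) (sbm B')
    (by
      apply MvPolynomial.algHom_ext
      intro i
      rw [AlgHom.comp_apply, sbm_sbm, h', sbm_one]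
      rfl)
    (by
      apply MvPolynomial.algHom_ext
      intro i
      rw [AlgHom.comp_apply, sbm_sbm, h, sbm_one]
      rfl)

/-- the multiplication by a variable -/
noncomputable def gX (i : σ) : weyl σ :=
  ⟨LinearMap.mulLeft ℂ (X i : MvPolynomial σ ℂ), Algebra.subset_adjoin (Or.inl ⟨i, rfl⟩)⟩

/-- the partial derivative -/
noncomputable def gD (i : σ) : weyl σ :=
  ⟨((pderiv i : Derivation ℂ (MvPolynomial σ ℂ) (MvPolynomial σ ℂ)) :
    MvPolynomial σ ℂ →ₗ[ℂ] MvPolynomial σ ℂ), Algebra.subset_adjoin (Or.inr ⟨i, rfl⟩)⟩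

theorem gX_apply (i : σ) (p : MvPolynomial σ ℂ) :
    (gX i : Module.End ℂ (MvPolynomial σ ℂ)) p = X i * p := rfl

theorem gD_apply (i : σ) (p : MvPolynomial σ ℂ) :
    (gD i : Module.End ℂ (MvPolynomial σ ℂ)) p = pderiv i p := rfl

theorem coe_sum_apply (S : Finset σ) (a : σ → ℂ) (g : σ → weyl σ) (p : MvPolynomial σ ℂ) :
    ((∑ k ∈ S, a k • g k : weyl σ) : Module.End ℂ (MvPolynomial σ ℂ)) p =
      ∑ k ∈ S, a k • (g k : Module.End ℂ (MvPolynomial σ ℂ)) p := by
  induction S using Finset.induction_on with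
  | empty => rw [Finset.sum_empty, Finset.sum_empty]; rfl
  | insert k t hk ih =>
    rw [Finset.sum_insert hk, Finset.sum_insert hk, Subalgebra.coe_add, LinearMap.add_apply, ih,
      Subalgebra.coe_smul, LinearMap.smul_apply]

theorem sbE_apply (B B' : Matrix σ σ ℂ) (h : B * B' = 1) (h' : B' * B = 1)
    (p : MvPolynomial σ ℂ) : sbE B B' h h' p = sbm B p := rfl

theorem sbE_symm_apply (B B' : Matrix σ σ ℂ) (h : B * B' = 1) (h' : B' * B = 1)
    (p : MvPolynomial σ ℂ) : (sbE B B' h h').symm p = sbm B' p := rfl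

theorem conj_X (B B' : Matrix σ σ ℂ) (h : B * B' = 1) (i : σ) (p : MvPolynomial σ ℂ) :
    ((∑ k, B' i k • gX k : weyl σ) : Module.End ℂ (MvPolynomial σ ℂ)) p =
      sbm B' (X i * sbm B p) := by
  rw [coe_sum_apply, map_mul, sbm_sbm, h, sbm_one, sbm_X, Finset.sum_mul]
  refine Finset.sum_congr rfl fun k _ => ?_
  rw [gX_apply, mul_assoc, C_mul']

theorem conj_D (B B' : Matrix σ σ ℂ) (h : B * B' = 1) (i : σ) (p : MvPolynomial σ ℂ) :
    ((∑ l, B l i • gD l : weyl σ) : Module.End ℂ (MvPolynomial σ ℂ)) p =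
      sbm B' (pderiv i (sbm B p)) := by
  rw [coe_sum_apply, pderiv_sbm, map_sum]
  refine Finset.sum_congr rfl fun l _ => ?_
  rw [gD_apply, map_mul, sbm_C, sbm_sbm, h, sbm_one, C_mul']

theorem sbE_conj (B B' : Matrix σ σ ℂ) (h : B * B' = 1) (h' : B' * B = 1)
    (Q : Module.End ℂ (MvPolynomial σ ℂ)) (hQ : Q ∈ weyl σ) : ∃ R : weyl σ, ∀ p,
      (R : Module.End ℂ (MvPolynomial σ ℂ)) p = (sbE B B' h h').symm (Q (sbE B B' h h' p)) := by
  have hse : ∀ p, (sbE B B' h h').symm (sbE B B' h h' p) = p := AlgEquiv.symm_apply_apply _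
  have hes : ∀ p, sbE B B' h h' ((sbE B B' h h').symm p) = p := AlgEquiv.apply_symm_apply _
  induction hQ using Algebra.adjoin_induction with
  | mem Q hQ =>
    rcases hQ with ⟨i, rfl⟩ | ⟨i, rfl⟩
    · refine ⟨∑ k, B' i k • gX k, fun p => ?_⟩
      rw [conj_X B B' h i p, sbE_symm_apply, sbE_apply]
      rfl
    · refine ⟨∑ l, B l i • gD l, fun p => ?_⟩
      rw [conj_D B B' h i p, sbE_symm_apply, sbE_apply]
      rfl
  | algebraMap r =>
    refine ⟨algebraMap ℂ _ r, fun p => ?_⟩
    change r • p = (sbE B B' h h').symm (r • sbE B B' h h' p)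
    rw [map_smul, hse]
  | add Q Q' _ _ hq hq' =>
    obtain ⟨R, hR⟩ := hq
    obtain ⟨R', hR'⟩ := hq'
    refine ⟨R + R', fun p => ?_⟩
    change (R : Module.End ℂ (MvPolynomial σ ℂ)) p + (R' : Module.End ℂ (MvPolynomial σ ℂ)) p = _
    rw [hR, hR', LinearMap.add_apply, map_add]
  | mul Q Q' _ _ hq hq' =>
    obtain ⟨R, hR⟩ := hq
    obtain ⟨R', hR'⟩ := hq'
    refine ⟨R * R', fun p => ?_⟩
    change (R : Module.End ℂ (MvPolynomial σ ℂ)) ((R' : Module.End ℂ (MvPolynomial σ ℂ)) p) = _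
    rw [hR, hR', hes, Module.End.mul_apply]

/-- **Functional equations are invariant under linear changes of coordinates.** -/
theorem functionalEq_sbm (B : Matrix σ σ ℂ) (hB : B.det ≠ 0) (f : ι → MvPolynomial σ ℂ)
    (b : Polynomial ℂ) (hb : IsFunctionalEq f b) : IsFunctionalEq (fun j => sbm B (f j)) b := by
  have hu : IsUnit B.det := isUnit_iff_ne_zero.2 hB
  have h1 : B * B⁻¹ = 1 := Matrix.mul_nonsing_inv _ hu
  have h2 : B⁻¹ * B = 1 := Matrix.nonsing_inv_mul _ hu
  refine functionalEq_auto (sbE B⁻¹ B h2 h1) (sbE_conj _ _ h2 h1) _ b ?_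
  have : (fun j => sbE B⁻¹ B h2 h1 (sbm B (f j))) = f := by
    funext j
    change sbm B⁻¹ (sbm B (f j)) = f j
    rw [sbm_sbm, h1, sbm_one]
  rw [this]
  exact hb

end Pool.Agent.U334.TC
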