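import Pool.Agent.U334.TC.LinF
import Pool.Agent.Y230.PS.Cone2

set_option autoImplicit false
set_option linter.unusedSectionVars false
set_option linter.unusedVariables false

/-! # Lattices: the zeta functions of the forms `f(B x)`, `B` in `GL(ℚ_p)` -/

namespace Pool.Agent.U334.TC

open MeasureTheory Pool.Agent.W427.SMC Pool.Agent.Y230.PT Pool.Agent.Y230.PS
open scoped ENNReal
open Pool.Agent.Y230.RE

attribute [local instance] msZ bsZ

variable {p : ℕ} [Fact p.Prime]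

/-- pole of order at most `μ` at `T0` -/
def RE (p : ℕ) [Fact p.Prime] (T0 : ℂ) (μ : ℕ∞) (F : ℝ → ℂ) : Prop :=
  ∃ M : ℕ, (M : ℕ∞) ≤ μ ∧ Reg p T0 M F

section RE

variable {T0 : ℂ} {μ : ℕ∞}

theorem RE.add {F G : ℝ → ℂ} (h1 : RE p T0 μ F) (h2 : RE p T0 μ G) :
    RE p T0 μ (fun s => F s + G s) := by
  obtain ⟨M, h3, h4⟩ := h1
  obtain ⟨N, h5, h6⟩ := h2
  refine ⟨max M N, ?_, (h4.mono (le_max_left _ _)).add (h6.mono (le_max_right _ _))⟩
  rcases max_choice M N with h | h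
  · rw [h]; exact h3
  · rw [h]; exact h5

theorem RE.sub {F G : ℝ → ℂ} (h1 : RE p T0 μ F) (h2 : RE p T0 μ G) :
    RE p T0 μ (fun s => F s - G s) := by
  obtain ⟨N, h5, h6⟩ := h2
  have h3 : RE p T0 μ (fun s => - G s) := ⟨N, h5, h6.neg⟩
  have h4 := h1.add h3
  simpa [sub_eq_add_neg] using h4

theorem RE.mul0 {F G : ℝ → ℂ} (h1 : Reg p T0 0 F) (h2 : RE p T0 μ G) :
    RE p T0 μ (fun s => F s * G s) := by
  obtain ⟨N, h5, h6⟩ := h2
  exact ⟨N, h5, h1.mul0 h6⟩

theorem RE.congr {F G : ℝ → ℂ} (h : RE p T0 μ F) (e : ∀ s, 0 ≤ s → F s = G s) : RE p T0 μ G := by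
  obtain ⟨M, h1, h2⟩ := h
  exact ⟨M, h1, h2.congr e⟩

theorem RE.mono {μ' : ℕ∞} {F : ℝ → ℂ} (h : RE p T0 μ F) (hm : μ ≤ μ') : RE p T0 μ' F := by
  obtain ⟨M, h1, h2⟩ := h
  exact ⟨M, h1.trans hm, h2⟩

theorem RE_zero (F : ℝ → ℂ) (h : ∀ s, 0 ≤ s → F s = 0) : RE p T0 μ F :=
  ⟨0, by simp, Reg.zero.congr fun s hs => (h s hs).symm⟩

theorem FR_iff {m : ℂ → ℕ∞} {F : ℝ → ℂ} : FR p m F ↔ ∀ T0 : ℂ, T0 ≠ 0 → RE p T0 (tr m T0) F :=
  Iff.rfl

/-- division by a polynomial which does not vanish at `T0` -/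
theorem RE.div {F : ℝ → ℂ} (g : Polynomial ℂ) (hg : g.eval T0 ≠ 0)
    (h : RE p T0 μ (fun s => g.eval ((tr' p s : ℝ) : ℂ) * F s)) : RE p T0 μ F := by
  obtain ⟨M, h1, Q, P, h2, h3⟩ := h
  refine ⟨M, h1, Q * g, P, by rw [Polynomial.eval_mul]; exact mul_ne_zero h2 hg, fun s hs => ?_⟩
  have h4 := h3 s hs
  simp only [Polynomial.eval_mul] at h4 ⊢
  rw [← h4]
  ring

theorem reg_poly (g : Polynomial ℂ) : Reg p T0 0 (fun s => g.eval ((tr' p s : ℝ) : ℂ)) :=
  ⟨1, g, by simp, fun s hs => by simp⟩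

/-- **The two relations.** -/
theorem fin_rel (n d N D : ℕ) (hd : 0 < d) (hD : 0 < D) (hT0 : T0 ≠ 0) (X : ℝ → ℂ)
    (h1 : RE p T0 μ (fun s => X s - ((qr p : ℝ) : ℂ) ^ (n + 1) * (((tr' p s : ℝ) : ℂ) ^ d * X s)))
    (h2 : RE p T0 μ (fun s => X s - ((qr p : ℝ) : ℂ) ^ (N * (n + 1)) *
      (((tr' p s : ℝ) : ℂ) ^ (N * d + D) * X s))) : RE p T0 μ X := by
  have hp1 : (1 : ℝ) < p := by exact_mod_cast (Fact.out : p.Prime).one_lt
  have hpC : (p : ℂ) ≠ 0 := by exact_mod_cast (Fact.out : p.Prime).ne_zero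
  have hq : ((qr p : ℝ) : ℂ) = (p : ℂ)⁻¹ := by
    unfold qr
    push_cast
    rfl
  have hq0 : ((qr p : ℝ) : ℂ) ≠ 0 := by rw [hq]; exact inv_ne_zero hpC
  set A : Polynomial ℂ := Polynomial.C (((qr p : ℝ) : ℂ) ^ (n + 1)) * Polynomial.X ^ d with hA
  by_cases hT1 : ‖T0‖ ≤ 1
  · refine RE.div (1 - A) ?_ (h1.congr fun s hs => ?_)
    · rw [hA]
      simp only [Polynomial.eval_sub, Polynomial.eval_one, Polynomial.eval_mul, Polynomial.eval_C,
        Polynomial.eval_pow, Polynomial.eval_X]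
      intro h0
      have h3 : ‖((qr p : ℝ) : ℂ) ^ (n + 1) * T0 ^ d‖ = 1 := by
        rw [← sub_eq_zero.1 h0, norm_one]
      rw [norm_mul, norm_pow, norm_pow, Complex.norm_real, Real.norm_of_nonneg qr_pos.le] at h3
      have h4 : ‖T0‖ ^ d ≤ 1 := pow_le_one₀ (norm_nonneg _) hT1
      have h5 : qr p ^ (n + 1) < 1 := pow_lt_one₀ qr_pos.le qr_lt_one (by omega)
      have h6 : qr p ^ (n + 1) * ‖T0‖ ^ d ≤ qr p ^ (n + 1) * 1 :=
        mul_le_mul_of_nonneg_left h4 (pow_nonneg qr_pos.le _)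
      linarith
    · rw [hA]
      simp only [Polynomial.eval_sub, Polynomial.eval_one, Polynomial.eval_mul, Polynomial.eval_C,
        Polynomial.eval_pow, Polynomial.eval_X]
      ring
  · have hT : 1 < ‖T0‖ := not_le.1 hT1
    -- `(1 - a ^ N) X`
    have h3 : RE p T0 μ (fun s => X s - (((qr p : ℝ) : ℂ) ^ (n + 1) *
        ((tr' p s : ℝ) : ℂ) ^ d) ^ N * X s) := by
      have h4 := RE.mul0 (p := p) (T0 := T0) (reg_poly (p := p) (∑ i ∈ Finset.range N, A ^ i)) h1
      refine h4.congr fun s hs => ?_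
      have h5 := geom_sum_mul_neg (((qr p : ℝ) : ℂ) ^ (n + 1) * ((tr' p s : ℝ) : ℂ) ^ d) N
      rw [Polynomial.eval_finsetSum]
      simp only [hA, Polynomial.eval_pow, Polynomial.eval_mul, Polynomial.eval_C,
        Polynomial.eval_X]
      linear_combination (X s) * h5
    have h4 := (h3.sub h2)
    refine RE.div (1 - Polynomial.X ^ D) ?_ ?_
    · simp only [Polynomial.eval_sub, Polynomial.eval_one, Polynomial.eval_pow, Polynomial.eval_X]
      intro h0
      have h5 : ‖T0 ^ D‖ = 1 := by rw [← sub_eq_zero.1 h0, norm_one]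
      rw [norm_pow] at h5
      have h6 := one_lt_pow₀ hT hD.ne'
      linarith
    · have h5 : Reg p T0 0 (fun s => -((((qr p : ℝ) : ℂ) ^ (N * (n + 1)))⁻¹ *
          (((tr' p s : ℝ) : ℂ)⁻¹) ^ (N * d))) :=
        Reg.neg (Reg.mul0 (Reg.const _) ((Reg.tinv hT0).pow _))
      refine (RE.mul0 h5 h4).congr fun s hs => ?_
      have ht : ((tr' p s : ℝ) : ℂ) ≠ 0 := by exact_mod_cast (tr'_pos p s).ne'
      have hqn := pow_ne_zero (N * (n + 1)) hq0
      have htn := pow_ne_zero (N * d) ht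
      simp only [Polynomial.eval_sub, Polynomial.eval_one, Polynomial.eval_pow, Polynomial.eval_X]
      rw [inv_pow, mul_pow, ← pow_mul, ← pow_mul, pow_add, mul_comm (n + 1) N, mul_comm d N]
      field_simp
      ring

end RE

section lat

variable {n : ℕ} {ι : Type} [Fintype ι]

/-- the family `f_j(B x)` -/
noncomputable def sbF (B : Matrix (Fin (n + 1)) (Fin (n + 1)) ℚ_[p])
    (f : ι → MvPolynomial (Fin (n + 1)) ℚ_[p]) : ι → MvPolynomial (Fin (n + 1)) ℚ_[p] :=
  fun j => sbm B (f j)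

theorem sbF_mul (B B' : Matrix (Fin (n + 1)) (Fin (n + 1)) ℚ_[p])
    (f : ι → MvPolynomial (Fin (n + 1)) ℚ_[p]) : sbF B' (sbF B f) = sbF (B * B') f := by
  funext j
  exact sbm_sbm B B' (f j)

theorem scl_eq (c : Fin (n + 1) → ℚ_[p]) (f : ι → MvPolynomial (Fin (n + 1)) ℚ_[p]) :
    scl c f = sbF (Matrix.diagonal c) f := by
  funext j
  unfold scl sbF sbm
  congr 1
  congr 1
  funext i
  rw [Finset.sum_eq_single i]
  · rw [Matrix.diagonal_apply_eq]
  · intro b _ hb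
    rw [Matrix.diagonal_apply_ne _ hb.symm, map_zero, zero_mul]
  · simp

theorem sbF_hom (B : Matrix (Fin (n + 1)) (Fin (n + 1)) ℚ_[p])
    (f : ι → MvPolynomial (Fin (n + 1)) ℚ_[p]) (d : ℕ) (hf : ∀ j, (f j).IsHomogeneous d) (j : ι) :
    (sbF B f j).IsHomogeneous d := by
  unfold sbF sbm
  have h := (hf j).aeval (fun i => ∑ k, MvPolynomial.C (B i k) * MvPolynomial.X k) (n := 1)
    (fun i => by
      refine MvPolynomial.IsHomogeneous.sum _ _ _ fun k _ => ?_
      have h1 := (MvPolynomial.isHomogeneous_C (Fin (n + 1)) (B i k)).mul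
        (MvPolynomial.isHomogeneous_X ℚ_[p] k)
      rwa [zero_add] at h1)
  rwa [one_mul] at h

/-- the inclusion as a ring homomorphism -/
noncomputable def incR (p : ℕ) [Fact p.Prime] : ℤ_[p] →+* ℚ_[p] := PadicInt.Coe.ringHom

theorem incR_apply (z : ℤ_[p]) : incR p z = inc p z := rfl

theorem incR_inj : Function.Injective (incR p) := fun a b h => Subtype.ext h

/-- the action of `GL(ℤ_p)` preserves the measure -/
theorem mp_mat (U V : Matrix (Fin (n + 1)) (Fin (n + 1)) ℤ_[p]) (hUV : U * V = 1) :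
    MeasurePreserving (fun x : Fin (n + 1) → ℤ_[p] => U.mulVec x)
      (Measure.pi fun _ : Fin (n + 1) => mu p) (Measure.pi fun _ : Fin (n + 1) => mu p) := by
  have hcont : Continuous (fun x : Fin (n + 1) → ℤ_[p] => U.mulVec x) := by
    refine continuous_pi fun i => ?_
    unfold Matrix.mulVec dotProduct
    exact continuous_finsetSum _ fun k _ => continuous_const.mul (continuous_apply k)
  let g : (Fin (n + 1) → ℤ_[p]) →+ (Fin (n + 1) → ℤ_[p]) := (Matrix.mulVecLin U).toAddMonoidHom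
  have hg : (g : (Fin (n + 1) → ℤ_[p]) → (Fin (n + 1) → ℤ_[p])) = fun x => U.mulVec x := rfl
  have hsurj : Function.Surjective g := by
    intro y
    refine ⟨V.mulVec y, ?_⟩
    change U.mulVec (V.mulVec y) = y
    rw [Matrix.mulVec_mulVec, hUV, Matrix.one_mulVec]
  exact AddMonoidHom.measurePreserving (f := g) hcont hsurj rfl

theorem sz_sbF_int (U : Matrix (Fin (n + 1)) (Fin (n + 1)) ℤ_[p])
    (f : ι → MvPolynomial (Fin (n + 1)) ℚ_[p]) (x : Fin (n + 1) → ℤ_[p]) :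
    sz (sbF (U.map (incR p)) f) x = sz f (U.mulVec x) := by
  unfold sz
  congr 1
  funext j
  unfold sbF
  rw [eval_sbm]
  congr 1
  congr 1
  funext i
  change _ = incR p (U.mulVec x i)
  rw [RingHom.map_mulVec]
  rfl

theorem FF_unit (U V : Matrix (Fin (n + 1)) (Fin (n + 1)) ℤ_[p]) (hUV : U * V = 1)
    (f : ι → MvPolynomial (Fin (n + 1)) ℚ_[p]) (s : ℝ) :
    FF (sbF (U.map (incR p)) f) s = FF f s := by
  have hm : Measurable fun x : Fin (n + 1) → ℤ_[p] => ENNReal.ofReal (sz f x ^ s) :=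
    ENNReal.measurable_ofReal.comp ((sz_meas f).pow_const s)
  unfold FF FZ
  rw [← (mp_mat U V hUV).lintegral_comp hm]
  simp only [sz_sbF_int]

theorem step (f : ι → MvPolynomial (Fin (n + 1)) ℚ_[p]) (d : ℕ) (hf : ∀ j, (f j).IsHomogeneous d)
    (B : Matrix (Fin (n + 1)) (Fin (n + 1)) ℚ_[p]) (i : Fin (n + 1)) {s : ℝ} (hs : 0 ≤ s) :
    FF (sbF B f) s = ((qr p : ℝ) : ℂ) *
      FF (sbF (B * Matrix.diagonal (Function.update 1 i (p : ℚ_[p]))) f) s +
      (1 - ((qr p : ℝ) : ℂ)) * FF (fun j => dehK i (sbF B f j)) s := by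
  have h := cone_step (sbF B f) d (sbF_hom B f d hf) i hs
  rw [scl_eq, sbF_mul] at h
  exact h

/-- **Integral matrices.** -/
theorem int_mat (f : ι → MvPolynomial (Fin (n + 1)) ℚ_[p]) (d : ℕ)
    (hf : ∀ j, (f j).IsHomogeneous d) (T0 : ℂ) (μ : ℕ∞)
    (hch : ∀ B : Matrix (Fin (n + 1)) (Fin (n + 1)) ℚ_[p], B.det ≠ 0 → ∀ i : Fin (n + 1),
      RE p T0 μ (FF (fun j => dehK i (sbF B f j)))) (k : ℕ) :
    ∀ (P : Matrix (Fin (n + 1)) (Fin (n + 1)) ℤ_[p]) (u : ℤ_[p]), IsUnit u →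
      P.det = (p : ℤ_[p]) ^ k * u → ∀ B : Matrix (Fin (n + 1)) (Fin (n + 1)) ℚ_[p], B.det ≠ 0 →
      RE p T0 μ (fun s => FF (sbF B f) s -
        ((qr p : ℝ) : ℂ) ^ k * FF (sbF (B * P.map (incR p)) f) s) := by
  induction k with
  | zero =>
    intro P u hu hP B hB
    rw [pow_zero, one_mul] at hP
    have hPu : IsUnit P.det := by rw [hP]; exact hu
    obtain ⟨V, hV⟩ := (Matrix.isUnit_iff_isUnit_det P).2 hPu |>.exists_right_inv
    refine RE_zero _ fun s hs => ?_
    rw [← sbF_mul, FF_unit P V hV, pow_zero, one_mul, sub_self]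
  | succ k ih =>
    intro P u hu hP B hB
    have hp0 : (p : ℤ_[p]) ≠ 0 := by exact_mod_cast (Fact.out : p.Prime).ne_zero
    -- the kernel modulo `p`
    have hdet0 : (P.map (PadicInt.toZMod : ℤ_[p] →+* ZMod p)).det = 0 := by
      have h1 := (PadicInt.toZMod : ℤ_[p] →+* ZMod p).map_det P
      rw [RingHom.mapMatrix_apply] at h1
      rw [← h1, hP, map_mul, map_pow, map_natCast, ZMod.natCast_self, zero_pow (Nat.succ_ne_zero k),
        zero_mul]
    obtain ⟨w, hw0, hw⟩ := Matrix.exists_mulVec_eq_zero_iff.2 hdet0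
    obtain ⟨i, hi⟩ := Function.ne_iff.1 hw0
    set v : Fin (n + 1) → ℤ_[p] := fun k => ((w k).val : ℤ_[p]) with hv
    have hNZ : NeZero p := ⟨(Fact.out : p.Prime).ne_zero⟩
    have hvw : ∀ k, (PadicInt.toZMod : ℤ_[p] →+* ZMod p) (v k) = w k := by
      intro k
      rw [hv]
      beta_reduce
      rw [map_natCast, ZMod.natCast_zmod_val]
    have hker : ∀ z : ℤ_[p], (PadicInt.toZMod : ℤ_[p] →+* ZMod p) z = 0 → (p : ℤ_[p]) ∣ z := by
      intro z hz
      have h1 : z ∈ RingHom.ker (PadicInt.toZMod : ℤ_[p] →+* ZMod p) := hz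
      rw [PadicInt.ker_toZMod, PadicInt.maximalIdeal_eq_span_p, Ideal.mem_span_singleton] at h1
      exact h1
    have hdv : ∀ l, (p : ℤ_[p]) ∣ P.mulVec v l := by
      intro l
      apply hker
      rw [RingHom.map_mulVec]
      have h1 : (PadicInt.toZMod : ℤ_[p] →+* ZMod p) ∘ v = w := funext hvw
      rw [h1, hw]
      rfl
    choose y hy using hdv
    have hvi : IsUnit (v i) := by
      by_contra hn
      have h1 : v i ∈ IsLocalRing.maximalIdeal ℤ_[p] := hn
      rw [← PadicInt.ker_toZMod] at h1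
      apply hi
      have h2 : (PadicInt.toZMod : ℤ_[p] →+* ZMod p) (v i) = 0 := h1
      rw [hvw] at h2
      exact h2
    set U : Matrix (Fin (n + 1)) (Fin (n + 1)) ℤ_[p] := Matrix.updateCol 1 i v with hU
    have hUdet : U.det = v i := by
      rw [hU, ← Matrix.cramer_apply, Matrix.cramer_one]
      rfl
    obtain ⟨V, hV⟩ := (Matrix.isUnit_iff_isUnit_det U).2 (by rw [hUdet]; exact hvi)
      |>.exists_right_inv
    set P' : Matrix (Fin (n + 1)) (Fin (n + 1)) ℤ_[p] := Matrix.updateCol P i y with hP'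
    have hPU : P * U = P' * Matrix.diagonal (Function.update 1 i (p : ℤ_[p])) := by
      ext l m
      rw [Matrix.mul_diagonal]
      by_cases hm : m = i
      · subst hm
        rw [Function.update_self, hP', Matrix.updateCol_self, mul_comm, ← hy l]
        rw [Matrix.mul_apply, Matrix.mulVec, dotProduct]
        refine Finset.sum_congr rfl fun k _ => ?_
        rw [hU, Matrix.updateCol_self]
      · rw [Function.update_of_ne hm, Pi.one_apply, mul_one, hP', Matrix.updateCol_ne hm,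
          Matrix.mul_apply]
        rw [Finset.sum_eq_single m]
        · rw [hU, Matrix.updateCol_ne hm, Matrix.one_apply_eq, mul_one]
        · intro b _ hb
          rw [hU, Matrix.updateCol_ne hm, Matrix.one_apply_ne hb, mul_zero]
        · simp
    have hP'det : P'.det = (p : ℤ_[p]) ^ k * (u * v i) := by
      have h1 := congrArg Matrix.det hPU
      rw [Matrix.det_mul, Matrix.det_mul, hUdet, hP, Matrix.det_diagonal,
        Finset.prod_update_of_mem (Finset.mem_univ i)] at h1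
      simp only [Pi.one_apply, Finset.prod_const_one, mul_one] at h1
      apply mul_right_cancel₀ hp0
      rw [← h1]
      ring
    have hB' : (B * P'.map (incR p)).det ≠ 0 := by
      rw [Matrix.det_mul]
      refine mul_ne_zero hB ?_
      have h1 := (incR p).map_det P'
      rw [RingHom.mapMatrix_apply] at h1
      rw [← h1, Ne, map_eq_zero_iff _ incR_inj, hP'det]
      exact mul_ne_zero (pow_ne_zero _ hp0) (mul_ne_zero hu.ne_zero hvi.ne_zero)
    have h1 := ih P' (u * v i) (hu.mul hvi) hP'det B hB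
    have h2 : RE p T0 μ (fun s => (((qr p : ℝ) : ℂ) ^ k * (1 - ((qr p : ℝ) : ℂ))) *
        FF (fun j => dehK i (sbF (B * P'.map (incR p)) f j)) s) :=
      RE.mul0 (Reg.const _) (hch _ hB' i)
    refine (h1.add h2).congr fun s hs => ?_
    have h3 := step f d hf (B * P'.map (incR p)) i hs
    have h4 : B * P'.map (incR p) * Matrix.diagonal (Function.update 1 i (p : ℚ_[p])) =
        B * P.map (incR p) * U.map (incR p) := by
      rw [mul_assoc, mul_assoc]
      congr 1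
      have h5 := congrArg (fun Z : Matrix (Fin (n + 1)) (Fin (n + 1)) ℤ_[p] => Z.map (incR p)) hPU
      simp only [Matrix.map_mul] at h5
      rw [h5]
      congr 1
      ext a b
      rw [Matrix.map_apply, Matrix.diagonal_apply, Matrix.diagonal_apply]
      split_ifs with hab
      · subst hab
        by_cases hai : a = i
        · subst hai
          rw [Function.update_self, Function.update_self, map_natCast]
        · rw [Function.update_of_ne hai, Function.update_of_ne hai, Pi.one_apply, Pi.one_apply,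
            map_one]
      · rw [map_zero]
    have h5 : FF (sbF (B * P.map (incR p) * U.map (incR p)) f) s =
        FF (sbF (B * P.map (incR p)) f) s := by
      rw [← sbF_mul, FF_unit U V hV]
    rw [h4, h5] at h3
    rw [h3, pow_succ]
    ring

/-- scaling -/
theorem FF_of_eq (f g : ι → MvPolynomial (Fin (n + 1)) ℚ_[p]) (K : ℕ)
    (h : ∀ j, ∀ x : Fin (n + 1) → ℚ_[p],
      MvPolynomial.eval x (f j) = (p : ℚ_[p]) ^ K * MvPolynomial.eval x (g j)) (s : ℝ) :
    FF f s = ((tr' p s : ℝ) : ℂ) ^ K * FF g s := by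
  rw [FF_norm_smul (τ := Fin 0) f g ((p : ℚ_[p]) ^ K) (fun x => ?_) s]
  · congr 1
    rw [N_pow, ENNReal.toReal_pow, N_p, Tt_toReal]
    push_cast
    rfl
  · unfold sz
    have h4 : (fun j => MvPolynomial.eval (fun i => inc p (x i)) (f j)) =
        ((p : ℚ_[p]) ^ K) • fun j => MvPolynomial.eval (fun i => inc p (x i)) (g j) := by
      funext j
      rw [Pi.smul_apply, smul_eq_mul, h]
    rw [h4, norm_smul]

/-- the relation of the cone -/
theorem cone_rel (f : ι → MvPolynomial (Fin (n + 1)) ℚ_[p]) (d : ℕ)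
    (hf : ∀ j, (f j).IsHomogeneous d) (T0 : ℂ) (μ : ℕ∞)
    (hch : ∀ B : Matrix (Fin (n + 1)) (Fin (n + 1)) ℚ_[p], B.det ≠ 0 → ∀ i : Fin (n + 1),
      RE p T0 μ (FF (fun j => dehK i (sbF B f j))))
    (B : Matrix (Fin (n + 1)) (Fin (n + 1)) ℚ_[p]) (hB : B.det ≠ 0) :
    RE p T0 μ (fun s => FF (sbF B f) s -
      ((qr p : ℝ) : ℂ) ^ (n + 1) * (((tr' p s : ℝ) : ℂ) ^ d * FF (sbF B f) s)) := by
  have h1 := int_mat f d hf T0 μ hch (n + 1) (Matrix.diagonal fun _ => (p : ℤ_[p])) 1 isUnit_one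
    (by rw [Matrix.det_diagonal, Finset.prod_const, Finset.card_univ, Fintype.card_fin, mul_one])
    B hB
  refine h1.congr fun s hs => ?_
  congr 2
  refine FF_of_eq _ _ _ (fun j x => ?_) s
  unfold sbF
  rw [eval_sbm, eval_sbm]
  have h2 : (B * (Matrix.diagonal fun _ => (p : ℤ_[p])).map (incR p)).mulVec x =
      fun i => (p : ℚ_[p]) * B.mulVec x i := by
    have h3 : (Matrix.diagonal fun _ : Fin (n + 1) => (p : ℤ_[p])).map (incR p) =
        (p : ℚ_[p]) • (1 : Matrix (Fin (n + 1)) (Fin (n + 1)) ℚ_[p]) := by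
      ext a b
      rw [Matrix.map_apply, Matrix.diagonal_apply, Matrix.smul_apply, Matrix.one_apply]
      split_ifs <;> simp
    rw [h3, Matrix.mul_smul, mul_one, Matrix.smul_mulVec]
    rfl
  rw [h2, eval_hom (f j) d (hf j)]

/-- **Forms with a large stabilizer have no pole at the exceptional divisor.** -/
theorem stab_RE (f : ι → MvPolynomial (Fin (n + 1)) ℚ_[p]) (d : ℕ) (hd : 0 < d)
    (hf : ∀ j, (f j).IsHomogeneous d) (T0 : ℂ) (hT0 : T0 ≠ 0) (μ : ℕ∞)
    (hch : ∀ B : Matrix (Fin (n + 1)) (Fin (n + 1)) ℚ_[p], B.det ≠ 0 → ∀ i : Fin (n + 1),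
      RE p T0 μ (FF (fun j => dehK i (sbF B f j))))
    (D : ℕ) (hD : 0 < D) (t : Matrix (Fin (n + 1)) (Fin (n + 1)) ℚ_[p]) (ht : t.det = 1)
    (htf : ∀ j, sbm t (f j) = MvPolynomial.C ((p : ℚ_[p]) ^ D) * f j)
    (B : Matrix (Fin (n + 1)) (Fin (n + 1)) ℚ_[p]) (hB : B.det ≠ 0) :
    RE p T0 μ (FF (sbF B f)) := by
  have hp0 : (p : ℚ_[p]) ≠ 0 := by exact_mod_cast (Fact.out : p.Prime).ne_zero
  have hp1 : (1 : ℝ) < p := by exact_mod_cast (Fact.out : p.Prime).one_lt
  set G : Matrix (Fin (n + 1)) (Fin (n + 1)) ℚ_[p] := B⁻¹ * t * B with hG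
  have hBu : IsUnit B.det := isUnit_iff_ne_zero.2 hB
  have hBG : B * G = t * B := by
    rw [hG, ← mul_assoc, ← mul_assoc, Matrix.mul_nonsing_inv _ hBu, one_mul]
  have hGdet : G.det = 1 := by
    have h1 : B.det * G.det = t.det * B.det := by
      rw [← Matrix.det_mul, ← Matrix.det_mul, hBG]
    rw [ht, one_mul] at h1
    exact mul_left_cancel₀ hB (by rw [h1, mul_one])
  -- an integral multiple
  obtain ⟨N, hN⟩ : ∃ N : ℕ, ∀ i k, ‖(p : ℚ_[p]) ^ N * G i k‖ ≤ 1 := by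
    obtain ⟨R, hR⟩ : ∃ R : ℝ, ∀ i k, ‖G i k‖ ≤ R := by
      refine ⟨∑ i, ∑ k, ‖G i k‖, fun i k => ?_⟩
      refine le_trans ?_ (Finset.single_le_sum (f := fun i => ∑ k, ‖G i k‖)
        (fun i _ => Finset.sum_nonneg fun k _ => norm_nonneg _) (Finset.mem_univ i))
      exact Finset.single_le_sum (f := fun k => ‖G i k‖) (fun k _ => norm_nonneg _)
        (Finset.mem_univ k)
    obtain ⟨N, hN⟩ := pow_unbounded_of_one_lt R hp1
    refine ⟨N, fun i k => ?_⟩
    rw [norm_mul, norm_pow, Padic.norm_p, inv_pow, inv_mul_le_iff₀ (by positivity), mul_one]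
    exact (hR i k).trans hN.le
  set P : Matrix (Fin (n + 1)) (Fin (n + 1)) ℤ_[p] := Matrix.of fun i k =>
    ⟨(p : ℚ_[p]) ^ N * G i k, hN i k⟩ with hP
  have hPG : P.map (incR p) = (p : ℚ_[p]) ^ N • G := by
    ext i k
    rfl
  have hPdet : P.det = (p : ℤ_[p]) ^ (N * (n + 1)) * 1 := by
    apply incR_inj
    have h1 := (incR p).map_det P
    rw [RingHom.mapMatrix_apply, hPG, Matrix.det_smul, hGdet, Fintype.card_fin] at h1
    rw [h1, mul_one, mul_one, map_pow, map_natCast, pow_mul]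
  have h1 := cone_rel f d hf T0 μ hch B hB
  have h2 := int_mat f d hf T0 μ hch (N * (n + 1)) P 1 isUnit_one hPdet B hB
  refine fin_rel n d N D hd hD hT0 _ h1 (h2.congr fun s hs => ?_)
  congr 2
  refine FF_of_eq _ _ _ (fun j x => ?_) s
  unfold sbF
  rw [eval_sbm, eval_sbm, hPG, Matrix.mul_smul, hBG, Matrix.smul_mulVec]
  have h3 : ((p : ℚ_[p]) ^ N • (t * B).mulVec x) = fun i => (p : ℚ_[p]) ^ N * (t * B).mulVec x i :=
    rfl
  rw [h3, eval_hom (f j) d (hf j), ← Matrix.mulVec_mulVec, ← eval_sbm t (f j), htf, map_mul,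
    MvPolynomial.eval_C, pow_add, pow_mul]
  ring

end lat

end Pool.Agent.U334.TC
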