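import Pool.Agent.U334.TC.Tern
import Pool.Agent.U184.Padic

set_option autoImplicit false
set_option linter.unusedSectionVars false
set_option linter.unusedVariables false

/-! # The new members of the class -/

namespace Pool.Agent.U334.TC

open MeasureTheory MvPolynomial Pool.Agent.W427.SMC Pool.Agent.Y230.PT Pool.Agent.Y230.PS
open Pool.Agent.Y230.TH Pool.Agent.R852.PP Pool.Agent.N127.PB Pool.Agent.N127.PP
open scoped ENNReal
open Pool.Agent.Y230.RE Pool.Agent.W574.SM Pool.Agent.W574.CN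
open Pool.Agent.W574.RO hiding dl
open Pool.Agent.U184 (WHForm NoField)

attribute [local instance] msZ bsZ

variable {p : ℕ} [Fact p.Prime]

/-- a linear form -/
theorem lin_eq {n : ℕ} (v : MvPolynomial (Fin n) ℂ) (hv : v.IsHomogeneous 1) :
    v = ∑ k, C (coeff (Finsupp.single k 1) v) * X k := by
  classical
  ext m
  rw [coeff_sum]
  simp only [coeff_C_mul, coeff_X]
  by_cases hm : coeff m v = 0
  · rw [hm]
    symm
    refine Finset.sum_eq_zero fun k _ => ?_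
    split_ifs with h
    · rw [h, hm, zero_mul]
    · rw [mul_zero]
  · have h1 : m.degree = 1 := by
      rw [Finsupp.degree_eq_weight_one]
      exact hv hm
    obtain ⟨k, hk⟩ := (Finsupp.sum_eq_one_iff m).1 h1
    rw [Finset.sum_eq_single k]
    · rw [if_pos hk.symm, mul_one, hk]
    · intro l _ hl
      rw [if_neg, mul_zero]
      rw [hk]
      intro h
      exact hl (Finsupp.single_left_injective one_ne_zero h)
    · simp

/-- the matrix of the vector field -/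
theorem field_matrix {r : ℕ} (f : Fin r → MvPolynomial (Fin 3) ℂ) (hv : HasField f) :
    ∃ A : Matrix (Fin 3) (Fin 3) ℂ, A.trace = 0 ∧ ∀ j, LD A (f j) = f j := by
  obtain ⟨v, hv1, hv2, hv3⟩ := hv
  refine ⟨Matrix.of fun l k => coeff (Finsupp.single k 1) (v l), ?_, fun j => ?_⟩
  · have h1 : ∀ l, pderiv l (v l) = C (coeff (Finsupp.single l 1) (v l)) := by
      intro l
      conv_lhs => rw [lin_eq (v l) (hv1 l)]
      rw [map_sum, Finset.sum_eq_single l]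
      · rw [Derivation.leibniz, pderiv_X_self, pderiv_C, smul_zero, add_zero, smul_eq_mul, mul_one]
      · intro b _ hb
        rw [Derivation.leibniz, pderiv_X_of_ne hb, pderiv_C, smul_zero, smul_zero, add_zero]
      · simp
    rw [Finset.sum_congr rfl fun l _ => h1 l, ← map_sum, C_eq_zero] at hv2
    exact hv2
  · rw [LD_eq]
    refine Eq.trans ?_ (hv3 j)
    refine Finset.sum_congr rfl fun l _ => ?_
    congr 1
    exact (lin_eq (v l) (hv1 l)).symm

theorem mM_le_mR (A : FamQ) (hA : ∃ j, A.f j ≠ 0) (T : ℂ) : mM p A T ≤ mR p A T := by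
  classical
  by_cases h : Forced A.toC ((rr p T : ℝ) : ℂ)
  · rw [mR_top h]
    exact le_top
  · obtain ⟨b, hb, hbe⟩ : ∃ b : Polynomial ℂ, IsFunctionalEq A.toC b ∧
        b.eval ((rr p T : ℝ) : ℂ) ≠ 0 := by
      by_contra hn
      push Not at hn
      exact h hn
    refine iSup_le fun k => ?_
    have h1 := k.2 b hb
    have hk : (k : ℕ) = 0 := by
      by_contra hk
      apply hbe
      have h2 := (dvd_pow_self (Polynomial.X - Polynomial.C ((rr p T : ℝ) : ℂ)) hk).trans h1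
      exact Polynomial.dvd_iff_isRoot.1 h2
    rw [hk]
    exact bot_le

/-- the stabilizer over `ℚ_p` -/
theorem stab_p (r : ℕ) (f : Fin r → MvPolynomial (Fin 3) ℚ)
    (hv : HasField fun j => map (algebraMap ℚ ℂ) (f j)) :
    ∃ (D : ℕ) (t : Matrix (Fin 3) (Fin 3) ℚ_[p]), 0 < D ∧ t.det = 1 ∧ ∀ j,
      sbm t (FamQ.toP p ⟨Fin 3, Fin r, f⟩ j) =
        C ((p : ℚ_[p]) ^ D) * FamQ.toP p ⟨Fin 3, Fin r, f⟩ j := by
  obtain ⟨A, hA1, hA2⟩ := field_matrix _ hv
  have hp0 : (p : ℚ) ≠ 0 := by exact_mod_cast (Fact.out : p.Prime).ne_zero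
  obtain ⟨D, t, hD, ht, htf⟩ := split_matrix f A hA1 hA2 (p : ℚ) hp0
  refine ⟨D, t.map (algebraMap ℚ ℚ_[p]), hD, ?_, fun j => ?_⟩
  · have h1 := (algebraMap ℚ ℚ_[p]).map_det t
    rw [RingHom.mapMatrix_apply] at h1
    rw [← h1, ht, map_one]
  · change sbm _ (map (algebraMap ℚ ℚ_[p]) (f j)) = _ * map (algebraMap ℚ ℚ_[p]) (f j)
    rw [← map_sbm, htf, map_mul, map_C, map_pow, map_natCast]

/-- **Forms with a vector field**: the orders of the poles. -/
theorem field_M (r d : ℕ) (hd : 0 < d) (f : Fin r → MvPolynomial (Fin 3) ℚ)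
    (hf : ∀ j, (f j).IsHomogeneous d) (hne : ∃ j, f j ≠ 0)
    (hv : HasField fun j => map (algebraMap ℚ ℂ) (f j)) (B : Matrix (Fin 3) (Fin 3) ℚ_[p])
    (hB : B.det ≠ 0) :
    FR p (mM p ⟨Fin 3, Fin r, f⟩) (FF (sbF B (FamQ.toP p ⟨Fin 3, Fin r, f⟩))) := by
  obtain ⟨φ⟩ := exists_emb p
  obtain ⟨D, t, hD, ht, htf⟩ := stab_p (p := p) r f hv
  intro T0 hT0
  exact stab_RE (n := 2) (FamQ.toP p ⟨Fin 3, Fin r, f⟩) d hd (fun j => (hf j).map _) T0 hT0 _
    (fun B hB i => chart_M φ r d f hf hne B hB i T0 hT0) D hD t ht htf B hB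

theorem hasField_of (f : MvPolynomial (Fin 3) ℚ) (hv : ¬ NoField (map (algebraMap ℚ ℂ) f)) :
    HasField fun _ : Fin 1 => map (algebraMap ℚ ℂ) f := by
  unfold NoField at hv
  push Not at hv
  obtain ⟨v, h1, h2, h3⟩ := hv
  exact ⟨v, h1, h2, fun _ => h3⟩

/-- **Forms with a vector field**: the refined bound. -/
theorem field_ref (hR : StR) (d : ℕ) (hd : 0 < d) (f : MvPolynomial (Fin 3) ℚ)
    (hf : f.IsHomogeneous d) (hne : f ≠ 0) (hv : ¬ NoField (map (algebraMap ℚ ℂ) f))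
    (B : Matrix (Fin 3) (Fin 3) ℚ_[p]) (hB : B.det ≠ 0) :
    FR p (rG p (wM p) ⟨Fin 3, Fin 1, fun _ => f⟩)
      (FF (sbF B (FamQ.toP p ⟨Fin 3, Fin 1, fun _ => f⟩))) := by
  obtain ⟨φ⟩ := exists_emb p
  obtain ⟨D, t, hD, ht, htf⟩ := stab_p (p := p) 1 (fun _ => f) (hasField_of f hv)
  intro T0 hT0
  exact stab_RE (n := 2) (FamQ.toP p ⟨Fin 3, Fin 1, fun _ => f⟩) d hd (fun j => hf.map _) T0 hT0 _
    (fun B hB i => chart_ref hR φ d f hf hne B hB i T0 hT0) D hD t ht htf B hB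

/-- a scaled chart is a chart of a scaled form -/
theorem scl_chart {n : ℕ} {ι : Type} [Fintype ι] (i : Fin (n + 1)) (c : Fin n → ℚ_[p])
    (f : ι → MvPolynomial (Fin (n + 1)) ℚ_[p]) :
    scl c (fun j => dehK i (f j)) = fun j => dehK i (sbF (Matrix.diagonal
      (Fin.insertNth i (1 : ℚ_[p]) c : Fin (n + 1) → ℚ_[p])) f j) := by
  funext j
  apply MvPolynomial.funext
  intro y
  rw [eval_scl, eval_dehK, eval_dehK]
  unfold sbF
  rw [eval_sbm]
  congr 1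
  congr 1
  funext k
  rw [Matrix.mulVec_diagonal]
  induction k using Fin.succAboveCases i with
  | x => rw [Fin.insertNth_apply_same, Fin.insertNth_apply_same, Fin.insertNth_apply_same, mul_one]
  | p k =>
    rw [Fin.insertNth_apply_succAbove, Fin.insertNth_apply_succAbove,
      Fin.insertNth_apply_succAbove]

theorem det_ins {n : ℕ} (i : Fin (n + 1)) (c : Fin n → ℚ_[p]) (hc : ∀ k, c k ≠ 0) :
    (Matrix.diagonal (Fin.insertNth i (1 : ℚ_[p]) c : Fin (n + 1) → ℚ_[p])).det ≠ 0 := by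
  rw [Matrix.det_diagonal, Finset.prod_ne_zero_iff]
  intro k _
  induction k using Fin.succAboveCases i with
  | x => rw [Fin.insertNth_apply_same]; exact one_ne_zero
  | p k => rw [Fin.insertNth_apply_succAbove]; exact hc k

theorem det_diag_ne {n : ℕ} (c : Fin (n + 1) → ℚ_[p]) (hc : ∀ k, c k ≠ 0) :
    (Matrix.diagonal c).det ≠ 0 := by
  rw [Matrix.det_diagonal, Finset.prod_ne_zero_iff]
  exact fun k _ => hc k

theorem root_tern (f : MvPolynomial (Fin 3) ℚ) (d : ℕ)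
    (hw : WHForm (map (algebraMap ℚ ℂ) f) d) (hn : NoField (map (algebraMap ℚ ℂ) f))
    (b : Polynomial ℂ) (hb : IsFunctionalEq (FamQ.toC ⟨Fin 3, Fin 1, fun _ => f⟩) b) :
    b.eval (-((2 : ℕ) + 1 : ℂ) / d) = 0 := by
  have h := Pool.Agent.U184.root_d3 _ d ⟨hw, hn⟩ b (Pool.Agent.Y229.isB_of_single _ b hb)
  rw [← h]
  congr 1
  push_cast
  ring

theorem hom_of (f : MvPolynomial (Fin 3) ℚ) (d : ℕ)
    (hw : WHForm (map (algebraMap ℚ ℂ) f) d) : 0 < d ∧ f.IsHomogeneous d ∧ f ≠ 0 :=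
  ⟨hw.1, Pool.Agent.U184.hom_of_map f d hw.2.1, Pool.Agent.U184.ne_of_map f hw.2.2.1⟩

/-- the charts at the exceptional points -/
theorem chart_off (φ : ℚ_[p] →+* ℂ) (d : ℕ) (hd : 0 < d) (f : MvPolynomial (Fin 3) ℚ)
    (hf : f.IsHomogeneous d) (hne : f ≠ 0) (hs : ChartsOff f d) (i : Fin 3) (c : Fin 2 → ℚ_[p])
    (hc : ∀ k, c k ≠ 0) (T0 : ℂ) (hT0 : T0 ≠ 0) (he : T0 ^ d = (p : ℂ) ^ (2 + 1)) :
    RE p T0 0 (FF (scl c (fun j => dehK i (FamQ.toP p ⟨Fin 3, Fin 1, fun _ => f⟩ j)))) := by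
  classical
  obtain ⟨b, hb, hbe⟩ := hs i
  have hb0 : b ≠ 0 := fun h0 => hbe (by rw [h0, Polynomial.eval_zero])
  have hfe : IsFunctionalEq (fun j => map φ (scl c (fun j => dehK i
      (FamQ.toP p ⟨Fin 3, Fin 1, fun _ => f⟩ j)) j)) b := by
    have h1 := Pool.Agent.U184.map_dehK φ i c f
    change IsFunctionalEq (fun j : Fin 1 => map φ (scl c
      (fun j => dehK i (Pool.Agent.U184.fam p f j)) j)) b
    rw [h1]
    have h2 := functionalEq_scl (fun k => φ (c k)) (fun k => (map_ne_zero φ).2 (hc k))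
      (fun _ : Fin 1 => map (algebraMap ℚ ℂ) (dehQ i f)) b hb
    simp only [map_dehC] at h2
    exact h2
  have hne' : ∃ j, scl c (fun j => dehK i (FamQ.toP p ⟨Fin 3, Fin 1, fun _ => f⟩ j)) j ≠ 0 :=
    Pool.Agent.U184.dehK_ne i f d hf hne φ c hc
  have h3 := FR_plane φ _ hne' (fun T => (b.rootMultiplicity ((rr p T : ℝ) : ℂ) : ℕ∞))
    (fun T _ => ⟨b, hb0, hfe, le_rfl⟩) T0 hT0
  obtain ⟨M, hM1, hM2⟩ := h3
  refine ⟨M, ?_, hM2⟩
  unfold Pool.Agent.Y230.PS.tr at hM1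
  split_ifs at hM1 with h
  · exact hM1
  · refine hM1.trans (le_of_eq ?_)
    beta_reduce
    rw [Polynomial.rootMultiplicity_eq_zero]
    · simp
    · rw [Polynomial.IsRoot.def, rr_cone 2 d hd T0 he]
      exact hbe

/-- **Weighted homogeneous singularities**: a general form of the bound. -/
theorem tern_gen (φ : ℚ_[p] →+* ℂ) (d : ℕ) (hd : 0 < d) (f : MvPolynomial (Fin 3) ℚ)
    (hf : f.IsHomogeneous d) (hne : f ≠ 0) (hs : ChartsOff f d) (m : ℂ → ℕ∞)
    (hch : ∀ B : Matrix (Fin 3) (Fin 3) ℚ_[p], B.det ≠ 0 → ∀ i : Fin 3,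
      FR p m (FF (fun j => dehK i (sbF B (FamQ.toP p ⟨Fin 3, Fin 1, fun _ => f⟩) j))))
    (H : ∀ T : ℂ, 1 < ‖T‖ → T ^ d = (p : ℂ) ^ (2 + 1) → 1 ≤ m T)
    (c : Fin 3 → ℚ_[p]) (hc : ∀ k, c k ≠ 0) :
    FR p m (FF (scl c (FamQ.toP p ⟨Fin 3, Fin 1, fun _ => f⟩))) := by
  classical
  refine FR_cone (n := 2) (FamQ.toP p ⟨Fin 3, Fin 1, fun _ => f⟩) d hd (fun j => hf.map _)
    (fun T => if T ^ d = (p : ℂ) ^ (2 + 1) then 0 else m T) m (fun T hT => ?_)
    (fun i c' hc' => ?_) c hc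
  · split_ifs with h
    · rw [add_zero]
      exact H T hT h
    · rw [zero_add]
  · intro T0 hT0
    by_cases he : T0 ^ d = (p : ℂ) ^ (2 + 1)
    · obtain ⟨M, hM1, hM2⟩ := chart_off φ d hd f hf hne hs i c' hc' T0 hT0 he
      exact ⟨M, hM1.trans (by simp), hM2⟩
    · have h1 := hch _ (det_ins i c' hc') i T0 hT0
      rw [scl_chart i c' (FamQ.toP p ⟨Fin 3, Fin 1, fun _ => f⟩)]
      obtain ⟨M, hM1, hM2⟩ := h1
      refine ⟨M, hM1.trans ?_, hM2⟩
      unfold Pool.Agent.Y230.PS.tr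
      split_ifs
      · exact le_rfl
      · beta_reduce
        rw [if_neg he]

/-- the version without conditions on the charts, if the bound is infinite -/
theorem tern_top (φ : ℚ_[p] →+* ℂ) (d : ℕ) (hd : 0 < d) (f : MvPolynomial (Fin 3) ℚ)
    (hf : f.IsHomogeneous d) (hne : f ≠ 0) (m : ℂ → ℕ∞)
    (hch : ∀ B : Matrix (Fin 3) (Fin 3) ℚ_[p], B.det ≠ 0 → ∀ i : Fin 3,
      FR p m (FF (fun j => dehK i (sbF B (FamQ.toP p ⟨Fin 3, Fin 1, fun _ => f⟩) j))))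
    (H : ∀ T : ℂ, 1 < ‖T‖ → T ^ d = (p : ℂ) ^ (2 + 1) → m T = ⊤)
    (c : Fin 3 → ℚ_[p]) (hc : ∀ k, c k ≠ 0) :
    FR p m (FF (scl c (FamQ.toP p ⟨Fin 3, Fin 1, fun _ => f⟩))) := by
  classical
  refine FR_cone (n := 2) (FamQ.toP p ⟨Fin 3, Fin 1, fun _ => f⟩) d hd (fun j => hf.map _)
    m m (fun T hT => ?_) (fun i c' hc' => ?_) c hc
  · split_ifs with h
    · rw [H T hT h]
      exact le_top
    · rw [zero_add]
  · rw [scl_chart i c' (FamQ.toP p ⟨Fin 3, Fin 1, fun _ => f⟩)]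
    exact hch _ (det_ins i c' hc') i

section leaf

variable (d : ℕ) (f : MvPolynomial (Fin 3) ℚ) (hw : WHForm (map (algebraMap ℚ ℂ) f) d)

include hw

theorem rG_root (hn : NoField (map (algebraMap ℚ ℂ) f)) (h3 : d ≠ 3) (w : ℂ → ℕ → ℕ∞) (T : ℂ)
    (he : T ^ d = (p : ℂ) ^ (2 + 1)) : w T 1 ≤ rG p w ⟨Fin 3, Fin 1, fun _ => f⟩ T := by
  obtain ⟨hd, hf, hne⟩ := hom_of f d hw
  apply le_rG
  have hr := rr_cone (p := p) 2 d hd T he
  have hdl : dl ((rr p T : ℝ) : ℂ) = 0 := by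
    rw [dl_eq, if_neg]
    rw [hr]
    intro h
    apply h3
    have hdC : (d : ℂ) ≠ 0 := by exact_mod_cast hd.ne'
    rw [div_eq_iff hdC] at h
    have h4 : (d : ℂ) = 3 := by
      push_cast at h
      linear_combination h
    exact_mod_cast h4
  rw [hdl, add_zero]
  intro b hb
  rw [pow_one, Polynomial.dvd_iff_isRoot, Polynomial.IsRoot.def, hr]
  exact root_tern f d hw hn b hb

theorem surf_M (hR : StR) (h3 : d = 3 → ¬ NoField (map (algebraMap ℚ ℂ) f))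
    (hs : NoField (map (algebraMap ℚ ℂ) f) → ChartsOff f d) (c : Fin 3 → ℚ_[p])
    (hc : ∀ k, c k ≠ 0) : FR p (rG p (wM p) ⟨Fin 3, Fin 1, fun _ => f⟩)
      (FF (scl c (FamQ.toP p ⟨Fin 3, Fin 1, fun _ => f⟩))) := by
  classical
  obtain ⟨hd, hf, hne⟩ := hom_of f d hw
  obtain ⟨φ⟩ := exists_emb p
  by_cases hn : NoField (map (algebraMap ℚ ℂ) f)
  · refine tern_gen φ d hd f hf hne (hs hn) _
      (fun B hB i => chart_ref hR φ d f hf hne B hB i) (fun T hT he => ?_) c hc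
    refine le_trans ?_ (rG_root (p := p) d f hw hn (fun h => h3 h hn) (wM p) T he)
    unfold wM
    exact_mod_cast Nat.le_add_right 1 _
  · rw [scl_eq]
    exact field_ref hR d hd f hf hne hn _ (det_diag_ne c hc)

theorem surf_R (hR : StR) (h3 : d = 3 → ¬ NoField (map (algebraMap ℚ ℂ) f))
    (c : Fin 3 → ℚ_[p]) (hc : ∀ k, c k ≠ 0) : FR p (rG p (wR p) ⟨Fin 3, Fin 1, fun _ => f⟩)
      (FF (scl c (FamQ.toP p ⟨Fin 3, Fin 1, fun _ => f⟩))) := by
  classical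
  obtain ⟨hd, hf, hne⟩ := hom_of f d hw
  obtain ⟨φ⟩ := exists_emb p
  have hmono : ∀ T, rG p (wM p) ⟨Fin 3, Fin 1, fun _ => f⟩ T ≤
      rG p (wR p) ⟨Fin 3, Fin 1, fun _ => f⟩ T := fun T => iSup_mono fun k => wM_le T k
  by_cases hn : NoField (map (algebraMap ℚ ℂ) f)
  · refine tern_top φ d hd f hf hne _ (fun B hB i =>
      (chart_ref hR φ d f hf hne B hB i).mono fun T _ => hmono T) (fun T hT he => ?_) c hc
    refine top_le_iff.1 (le_trans ?_ (rG_root (p := p) d f hw hn (fun h => h3 h hn) (wR p) T he))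
    unfold wR
    rw [if_neg one_ne_zero]
  · rw [scl_eq]
    exact (field_ref hR d hd f hf hne hn _ (det_diag_ne c hc)).mono fun T _ => hmono T

end leaf

end Pool.Agent.U334.TC
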