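import Mathlib

set_option autoImplicit false
set_option linter.unusedSectionVars false
set_option linter.unusedVariables false

/-! # Linear vector fields and linear substitutions -/

namespace Pool.Agent.U334.TC

open MvPolynomial

variable {σ : Type} [Fintype σ] [DecidableEq σ]

/-- the substitution `f ↦ f(B x)` -/
noncomputable def sbm {K : Type} [CommRing K] (B : Matrix σ σ K) :
    MvPolynomial σ K →ₐ[K] MvPolynomial σ K :=
  aeval fun i => ∑ k, C (B i k) * X k

/-- the linear vector field `x ↦ A x` -/
noncomputable def LD {K : Type} [CommRing K] (A : Matrix σ σ K) :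
    Derivation K (MvPolynomial σ K) (MvPolynomial σ K) :=
  mkDerivation K fun l => ∑ k, C (A l k) * X k

section ring

variable {K : Type} [CommRing K]

theorem sbm_X (B : Matrix σ σ K) (i : σ) : sbm B (X i) = ∑ k, C (B i k) * X k := aeval_X _ _

theorem sbm_C (B : Matrix σ σ K) (a : K) : sbm B (C a) = C a := by
  rw [sbm, algHom_C, algebraMap_eq]

theorem LD_X (A : Matrix σ σ K) (l : σ) : LD A (X l) = ∑ k, C (A l k) * X k :=
  mkDerivation_X _ _ _

theorem LD_C (A : Matrix σ σ K) (a : K) : LD A (C a) = 0 := by
  rw [← algebraMap_eq]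
  exact Derivation.map_algebraMap _ _

theorem dsum (S : Finset σ) (D : σ → Derivation K (MvPolynomial σ K) (MvPolynomial σ K))
    (f : MvPolynomial σ K) : (∑ l ∈ S, D l) f = ∑ l ∈ S, D l f := by
  have h := congrFun (map_sum (Derivation.coeFnAddMonoidHom (R := K) (A := MvPolynomial σ K)
    (M := MvPolynomial σ K)) D S) f
  rw [Finset.sum_apply] at h
  exact h

theorem LD_eq (A : Matrix σ σ K) (f : MvPolynomial σ K) :
    LD A f = ∑ l, (∑ k, C (A l k) * X k) * pderiv l f := by
  have h : LD A = ∑ l, (∑ k, C (A l k) * X k : MvPolynomial σ K) • pderiv (R := K) l := by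
    apply MvPolynomial.derivation_ext
    intro i
    rw [LD_X, dsum]
    refine Eq.symm ((Finset.sum_eq_single i (fun b _ hb => ?_) (by simp)).trans ?_)
    · rw [Derivation.smul_apply, pderiv_X_of_ne hb.symm, smul_zero]
    · rw [Derivation.smul_apply, pderiv_X_self, smul_eq_mul, mul_one]
  rw [h, dsum]
  rfl

theorem LD_add (A B : Matrix σ σ K) (f : MvPolynomial σ K) : LD (A + B) f = LD A f + LD B f := by
  rw [LD_eq, LD_eq, LD_eq, ← Finset.sum_add_distrib]
  refine Finset.sum_congr rfl fun l _ => ?_
  rw [← add_mul, ← Finset.sum_add_distrib]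
  congr 1
  refine Finset.sum_congr rfl fun k _ => ?_
  rw [Matrix.add_apply, C_add, add_mul]

theorem sbm_sbm (B B' : Matrix σ σ K) (f : MvPolynomial σ K) :
    sbm B' (sbm B f) = sbm (B * B') f := by
  have h : (sbm B').comp (sbm B) = sbm (B * B') := by
    apply MvPolynomial.algHom_ext
    intro i
    rw [AlgHom.comp_apply, sbm_X, sbm_X, map_sum]
    simp only [map_mul, sbm_C, sbm_X, Matrix.mul_apply, map_sum, Finset.mul_sum, Finset.sum_mul]
    rw [Finset.sum_comm]
    refine Finset.sum_congr rfl fun k _ => Finset.sum_congr rfl fun l _ => ?_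
    ring
  exact congrArg (fun ψ : MvPolynomial σ K →ₐ[K] MvPolynomial σ K => ψ f) h

theorem sbm_one (f : MvPolynomial σ K) : sbm (1 : Matrix σ σ K) f = f := by
  have h : sbm (1 : Matrix σ σ K) = AlgHom.id K _ := by
    apply MvPolynomial.algHom_ext
    intro i
    rw [sbm_X, Finset.sum_eq_single i]
    · simp
    · intro b _ hb
      rw [Matrix.one_apply_ne hb.symm, C_0, zero_mul]
    · simp
  rw [h]
  rfl

theorem eval_sbm (B : Matrix σ σ K) (f : MvPolynomial σ K) (y : σ → K) :
    eval y (sbm B f) = eval (B.mulVec y) f := by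
  rw [sbm, aeval_def, eval_eval₂]
  congr 1
  · ext; simp
  · funext i
    simp [Matrix.mulVec, dotProduct]

/-- change of coordinates -/
theorem LD_sbm (A J h : Matrix σ σ K) (e : h * J = A * h) (f : MvPolynomial σ K) :
    LD J (sbm h f) = sbm h (LD A f) := by
  induction f using MvPolynomial.induction_on with
  | C a => rw [sbm_C, LD_C, LD_C, map_zero]
  | add f g hf hg => rw [map_add, map_add, hf, hg, map_add, map_add]
  | mul_X f i hf =>
    have h1 : LD J (sbm h (X i)) = sbm h (LD A (X i)) := by
      rw [sbm_X, LD_X, map_sum, map_sum]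
      simp only [Derivation.leibniz, LD_C, LD_X, map_mul, sbm_C, sbm_X, smul_eq_mul, mul_zero,
        add_zero, Finset.mul_sum]
      rw [Finset.sum_comm, Finset.sum_comm (s := Finset.univ (α := σ)) (t := Finset.univ (α := σ))
        (f := fun x i_1 => C (A i x) * (C (h x i_1) * X i_1))]
      refine Finset.sum_congr rfl fun m _ => ?_
      have h2 := congrFun (congrFun e i) m
      rw [Matrix.mul_apply, Matrix.mul_apply] at h2
      have h3 := congrArg (fun z : K => (C z * X m : MvPolynomial σ K)) h2
      simp only [map_sum, map_mul, Finset.sum_mul] at h3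
      simpa only [mul_assoc] using h3
    rw [map_mul, Derivation.leibniz, Derivation.leibniz, h1, hf]
    simp only [smul_eq_mul, map_add, map_mul]

/-- the diagonal vector field -/
theorem coeff_LD_diag (α : σ → K) (f : MvPolynomial σ K) (m : σ →₀ ℕ) :
    coeff m (LD (Matrix.diagonal α) f) = (∑ i, (m i : K) * α i) * coeff m f := by
  induction f using MvPolynomial.induction_on' with
  | monomial u a =>
    rw [LD_eq]
    have h1 : ∀ l : σ, (∑ k, C (Matrix.diagonal α l k) * X k : MvPolynomial σ K) * pderiv l
        (monomial u a) = monomial u (((u l : ℕ) : K) * α l * a) := by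
      intro l
      rw [Finset.sum_eq_single l]
      · rw [Matrix.diagonal_apply_eq, pderiv_monomial, C_mul', smul_mul_assoc, ← C_mul',
          X, monomial_mul, C_mul_monomial]
        by_cases h0 : u l = 0
        · rw [h0]
          simp
        · have h2 : Finsupp.single l 1 + (u - Finsupp.single l 1) = u := by
            rw [add_tsub_cancel_of_le]
            rw [Finsupp.single_le_iff]
            omega
          rw [h2]
          congr 1
          ring
      · intro b _ hb
        rw [Matrix.diagonal_apply_ne _ hb.symm, C_0, zero_mul]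
      · simp
    rw [Finset.sum_congr rfl fun l _ => h1 l, coeff_sum]
    simp only [coeff_monomial]
    by_cases h : u = m
    · subst h
      simp only [if_true]
      rw [Finset.sum_mul]
    · simp [h]
  | add f g hf hg => rw [map_add, coeff_add, coeff_add, hf, hg, mul_add]

theorem coeff_sbm_diag (c : σ → K) (f : MvPolynomial σ K) (m : σ →₀ ℕ) :
    coeff m (sbm (Matrix.diagonal c) f) = (∏ i, c i ^ m i) * coeff m f := by
  have hX : ∀ i, sbm (Matrix.diagonal c) (X i : MvPolynomial σ K) = C (c i) * X i := by
    intro i
    rw [sbm_X, Finset.sum_eq_single i]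
    · rw [Matrix.diagonal_apply_eq]
    · intro b _ hb
      rw [Matrix.diagonal_apply_ne _ hb.symm, C_0, zero_mul]
    · simp
  induction f using MvPolynomial.induction_on' with
  | monomial u a =>
    have h1 : sbm (Matrix.diagonal c) (monomial u a) = monomial u ((∏ i, c i ^ u i) * a) := by
      rw [monomial_eq, map_mul, sbm_C, Finsupp.prod_fintype _ _ (fun i => pow_zero _), map_prod]
      simp only [map_pow, hX, mul_pow]
      rw [Finset.prod_mul_distrib, monomial_eq, Finsupp.prod_fintype _ _ (fun i => pow_zero _)]
      simp only [← C_pow, ← map_prod, C_mul]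
      ring
    rw [h1, coeff_monomial, coeff_monomial]
    by_cases h : u = m
    · subst h; simp
    · simp [h]
  | add f g hf hg => rw [map_add, coeff_add, coeff_add, hf, hg, mul_add]

end ring

section nil

variable {K : Type} [CommRing K]

theorem iter_zero (D : Derivation K (MvPolynomial σ K) (MvPolynomial σ K)) (n : ℕ) :
    (⇑D)^[n] 0 = 0 := by
  induction n with
  | zero => rfl
  | succ n ih => rw [Function.iterate_succ_apply, map_zero, ih]

theorem iter_add (D : Derivation K (MvPolynomial σ K) (MvPolynomial σ K)) (n : ℕ)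
    (f g : MvPolynomial σ K) : (⇑D)^[n] (f + g) = (⇑D)^[n] f + (⇑D)^[n] g := by
  induction n generalizing f g with
  | zero => rfl
  | succ n ih => rw [Function.iterate_succ_apply, map_add, ih, Function.iterate_succ_apply,
      Function.iterate_succ_apply]

theorem iter_mono (D : Derivation K (MvPolynomial σ K) (MvPolynomial σ K)) (a n : ℕ) (h : a ≤ n)
    (f : MvPolynomial σ K) (hf : (⇑D)^[a] f = 0) : (⇑D)^[n] f = 0 := by
  obtain ⟨k, rfl⟩ := Nat.exists_eq_add_of_le h
  rw [add_comm, Function.iterate_add_apply, hf, iter_zero]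

theorem iter_mul (D : Derivation K (MvPolynomial σ K) (MvPolynomial σ K)) (n : ℕ) :
    ∀ (a b : ℕ) (f g : MvPolynomial σ K), a + b ≤ n + 1 → (⇑D)^[a] f = 0 → (⇑D)^[b] g = 0 →
      (⇑D)^[n] (f * g) = 0 := by
  induction n with
  | zero =>
    intro a b f g hab hf hg
    rcases Nat.eq_zero_or_pos a with h | h
    · subst h
      have : f = 0 := hf
      rw [this, zero_mul, iter_zero]
    · have hb : b = 0 := by omega
      subst hb
      have : g = 0 := hg
      rw [this, mul_zero, iter_zero]
  | succ n ih =>
    intro a b f g hab hf hg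
    rcases Nat.eq_zero_or_pos a with h | h
    · subst h
      have : f = 0 := hf
      rw [this, zero_mul, iter_zero]
    rcases Nat.eq_zero_or_pos b with h' | h'
    · subst h'
      have : g = 0 := hg
      rw [this, mul_zero, iter_zero]
    rw [Function.iterate_succ_apply, Derivation.leibniz, iter_add, smul_eq_mul, smul_eq_mul]
    obtain ⟨a', rfl⟩ : ∃ a', a = a' + 1 := ⟨a - 1, by omega⟩
    obtain ⟨b', rfl⟩ : ∃ b', b = b' + 1 := ⟨b - 1, by omega⟩
    have h1 := ih (a' + 1) b' f (D g) (by omega) hf (by
      rwa [← Function.iterate_succ_apply])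
    have h2 := ih (b' + 1) a' g (D f) (by omega) hg (by
      rwa [← Function.iterate_succ_apply])
    rw [h1, h2, add_zero]

theorem iter_X (N : Matrix σ σ K) (j : ℕ) (l : σ) :
    (⇑(LD N))^[j] (X l) = ∑ k, C ((N ^ j) l k) * X k := by
  induction j with
  | zero =>
    change X l = _
    rw [Finset.sum_eq_single l]
    · simp
    · intro b _ hb
      rw [pow_zero, Matrix.one_apply_ne hb.symm, C_0, zero_mul]
    · simp
  | succ j ih =>
    rw [Function.iterate_succ_apply', ih, map_sum]
    simp only [Derivation.leibniz, LD_C, LD_X, smul_eq_mul, mul_zero, add_zero, Finset.mul_sum]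
    rw [Finset.sum_comm]
    refine Finset.sum_congr rfl fun m _ => ?_
    rw [pow_succ, Matrix.mul_apply, map_sum, Finset.sum_mul]
    refine Finset.sum_congr rfl fun k _ => ?_
    rw [C_mul, mul_assoc]

/-- the vector field of a nilpotent matrix is locally nilpotent -/
theorem loc_nil (N : Matrix σ σ K) (hN : IsNilpotent N) (f : MvPolynomial σ K) :
    ∃ j : ℕ, (⇑(LD N))^[j] f = 0 := by
  obtain ⟨n, hn⟩ := hN
  induction f using MvPolynomial.induction_on with
  | C a => exact ⟨1, by rw [Function.iterate_one, LD_C]⟩
  | add f g hf hg =>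
    obtain ⟨a, ha⟩ := hf
    obtain ⟨b, hb⟩ := hg
    refine ⟨max a b, ?_⟩
    rw [iter_add, iter_mono _ a _ (le_max_left _ _) f ha, iter_mono _ b _ (le_max_right _ _) g hb,
      add_zero]
  | mul_X f i hf =>
    obtain ⟨a, ha⟩ := hf
    refine ⟨a + n, iter_mul _ _ a n f (X i) (by omega) ha ?_⟩
    rw [iter_X, hn]
    simp

end nil

section field

variable {K : Type} [Field K]

theorem eig_nil (N : Matrix σ σ K) (hN : IsNilpotent N) (G : MvPolynomial σ K) (μ : K)
    (hμ : μ ≠ 0) (h : LD N G = C μ * G) : G = 0 := by
  obtain ⟨j, hj⟩ := loc_nil N hN G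
  have h1 : ∀ j : ℕ, (⇑(LD N))^[j] G = C (μ ^ j) * G := by
    intro j
    induction j with
    | zero => simp
    | succ j ih =>
      rw [Function.iterate_succ_apply', ih, Derivation.leibniz, LD_C, h, smul_eq_mul, smul_zero,
        add_zero, pow_succ, C_mul, mul_assoc]
  rw [h1 j] at hj
  rcases mul_eq_zero.1 hj with h2 | h2
  · rw [C_eq_zero] at h2
    exact absurd h2 (pow_ne_zero j hμ)
  · exact h2

/-- **The exponents.** If `J` is the sum of `diag(α)` and of a nilpotent matrix which preserves the
eigenspaces, and `J` as a vector field fixes `F`, then the exponents of `F` have weight one. -/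
theorem weight_one (α : σ → K) (N : Matrix σ σ K) (hN : IsNilpotent N)
    (hb : ∀ i k, N i k ≠ 0 → α i = α k) (F : MvPolynomial σ K)
    (hF : LD (Matrix.diagonal α + N) F = F) (m : σ →₀ ℕ) (hm : coeff m F ≠ 0) :
    ∑ i, (m i : K) * α i = 1 := by
  classical
  set J : Matrix σ σ K := Matrix.diagonal α + N with hJ
  have hJb : ∀ i k, J i k ≠ 0 → α i = α k := by
    intro i k h
    by_cases hik : i = k
    · rw [hik]
    · apply hb
      rw [hJ, Matrix.add_apply, Matrix.diagonal_apply_ne _ hik, zero_add] at h
      exact h
  -- the weight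
  have hw : ∀ u : σ →₀ ℕ, Finsupp.weight α u = ∑ i, (u i : K) * α i := by
    intro u
    rw [Finsupp.weight_apply, Finsupp.sum_fintype _ _ (by simp)]
    simp only [nsmul_eq_mul]
  have hhom : ∀ (G : MvPolynomial σ K) (w : K), IsWeightedHomogeneous α G w →
      IsWeightedHomogeneous α (LD J G) w := by
    intro G w hG
    rw [LD_eq]
    refine IsWeightedHomogeneous.sum _ _ _ fun l _ => ?_
    have h1 : IsWeightedHomogeneous α (pderiv l G) (w - α l) :=
      IsWeightedHomogeneous.pderiv hG (by ring)
    have h2 : IsWeightedHomogeneous α (∑ k, C (J l k) * X k : MvPolynomial σ K) (α l) := by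
      refine IsWeightedHomogeneous.sum _ _ _ fun k _ => ?_
      by_cases h0 : J l k = 0
      · rw [h0, C_0, zero_mul]
        exact isWeightedHomogeneous_zero _ _ _
      · have h3 := (isWeightedHomogeneous_C α (J l k)).mul (isWeightedHomogeneous_X K α k)
        rw [zero_add, ← hJb l k h0] at h3
        exact h3
    have h4 := h2.mul h1
    rwa [add_sub_cancel] at h4
  have hcomm : ∀ (w : K) (G : MvPolynomial σ K),
      weightedHomogeneousComponent α w (LD J G) = LD J (weightedHomogeneousComponent α w G) := by
    intro w G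
    induction G using MvPolynomial.induction_on' with
    | monomial u a =>
      have h1 : IsWeightedHomogeneous α (monomial u a : MvPolynomial σ K)
          (Finsupp.weight α u) := isWeightedHomogeneous_monomial _ _ _ rfl
      by_cases h : Finsupp.weight α u = w
      · rw [h] at h1
        rw [h1.weightedHomogeneousComponent_same, (hhom _ _ h1).weightedHomogeneousComponent_same]
      · rw [h1.weightedHomogeneousComponent_ne w (fun e => h e.symm),
          (hhom _ _ h1).weightedHomogeneousComponent_ne w (fun e => h e.symm), map_zero]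
    | add f g hf hg => rw [map_add, map_add, hf, hg, map_add, map_add]
  set w : K := ∑ i, (m i : K) * α i with hwdef
  set G := weightedHomogeneousComponent α w F with hG
  have h1 : LD J G = G := by
    rw [hG, ← hcomm, hF]
  have h2 : LD (Matrix.diagonal α) G = C w * G := by
    ext u
    rw [coeff_LD_diag, coeff_C_mul, hG, coeff_weightedHomogeneousComponent]
    split_ifs with h
    · rw [hw] at h
      rw [h]
    · rw [mul_zero, mul_zero]
  have h3 : LD N G = C (1 - w) * G := by
    have h4 := LD_add (Matrix.diagonal α) N G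
    rw [← hJ, h1, h2] at h4
    rw [C_sub, C_1]
    linear_combination -h4
  by_contra hne
  have h5 := eig_nil N hN G (1 - w) (sub_ne_zero.2 (Ne.symm hne)) h3
  apply hm
  have h6 := congrArg (coeff m) h5
  rw [hG, coeff_weightedHomogeneousComponent, if_pos (hw m), coeff_zero] at h6
  exact h6

end field

end Pool.Agent.U334.TC
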