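import Pool.Agent.U334.TC.Lat
import Pool.Agent.U334.TC.Defs
import Pool.Agent.Y230.PS.Main

set_option autoImplicit false
set_option linter.unusedSectionVars false
set_option linter.unusedVariables false

/-! # Semi-invariant cones in any number of variables, on polydiscs -/

namespace Pool.Agent.U334.TC

open MeasureTheory MvPolynomial Pool.Agent.W427.SMC Pool.Agent.Y230.PT Pool.Agent.Y230.PS
open scoped ENNReal
open Pool.Agent.Y230.RE

attribute [local instance] msZ bsZ

variable {p : ℕ} [Fact p.Prime]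

section steps

variable {n : ℕ} {ι : Type} [Fintype ι] (f : ι → MvPolynomial (Fin (n + 1)) ℚ_[p]) (d : ℕ)
  (hf : ∀ j, (f j).IsHomogeneous d) (T0 : ℂ) (μ : ℕ∞)
  (hch : ∀ c : Fin (n + 1) → ℚ_[p], (∀ k, c k ≠ 0) → ∀ i : Fin (n + 1),
    RE p T0 μ (FF (fun j => dehK i (scl c f j))))

include hf hch

theorem dstep (i : Fin (n + 1)) (l : ℕ) : ∀ c : Fin (n + 1) → ℚ_[p], (∀ k, c k ≠ 0) →
    RE p T0 μ (fun s => FF (scl c f) s - ((qr p : ℝ) : ℂ) ^ l *
      FF (scl (fun k => (Function.update 1 i ((p : ℚ_[p]) ^ l) : Fin (n + 1) → ℚ_[p]) k * c k)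
        f) s) := by
  have hp0 : (p : ℚ_[p]) ≠ 0 := by exact_mod_cast (Fact.out : p.Prime).ne_zero
  induction l with
  | zero =>
    intro c hc
    refine RE_zero _ fun s hs => ?_
    have h1 : (fun k => (Function.update 1 i ((p : ℚ_[p]) ^ 0) : Fin (n + 1) → ℚ_[p]) k * c k) =
        c := by
      funext k
      rw [pow_zero]
      by_cases h : k = i
      · rw [h, Function.update_self, one_mul]
      · rw [Function.update_of_ne h, Pi.one_apply, one_mul]
    rw [h1, pow_zero, one_mul, sub_self]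
  | succ l ih =>
    intro c hc
    set c' : Fin (n + 1) → ℚ_[p] :=
      fun k => (Function.update 1 i ((p : ℚ_[p]) ^ l) : Fin (n + 1) → ℚ_[p]) k * c k with hc'
    have hc'0 : ∀ k, c' k ≠ 0 := by
      intro k
      rw [hc']
      beta_reduce
      refine mul_ne_zero ?_ (hc k)
      by_cases h : k = i
      · rw [h, Function.update_self]
        exact pow_ne_zero _ hp0
      · rw [Function.update_of_ne h]
        exact one_ne_zero
    have h1 := ih c hc
    have h2 : RE p T0 μ (fun s => (((qr p : ℝ) : ℂ) ^ l * (1 - ((qr p : ℝ) : ℂ))) *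
        FF (fun j => dehK i (scl c' f j)) s) :=
      RE.mul0 (Reg.const _) (hch c' hc'0 i)
    refine (h1.add h2).congr fun s hs => ?_
    have h3 := cone_step (scl c' f) d (scl_hom c' f d hf) i hs
    rw [scl_scl] at h3
    have h4 : (fun k => (Function.update 1 i (p : ℚ_[p]) : Fin (n + 1) → ℚ_[p]) k * c' k) =
        fun k => (Function.update 1 i ((p : ℚ_[p]) ^ (l + 1)) : Fin (n + 1) → ℚ_[p]) k * c k := by
      funext k
      rw [hc']
      beta_reduce
      by_cases h : k = i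
      · rw [h, Function.update_self, Function.update_self, Function.update_self, pow_succ]
        ring
      · rw [Function.update_of_ne h, Function.update_of_ne h, Function.update_of_ne h,
          Pi.one_apply, one_mul]
    rw [h4] at h3
    rw [h3, pow_succ]
    ring

theorem dsteps (k : Fin (n + 1) → ℕ) (S : Finset (Fin (n + 1))) (c : Fin (n + 1) → ℚ_[p])
    (hc : ∀ k, c k ≠ 0) :
    RE p T0 μ (fun s => FF (scl c f) s - ((qr p : ℝ) : ℂ) ^ (∑ i ∈ S, k i) *
      FF (scl (fun i => (if i ∈ S then (p : ℚ_[p]) ^ k i else 1) * c i) f) s) := by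
  classical
  have hp0 : (p : ℚ_[p]) ≠ 0 := by exact_mod_cast (Fact.out : p.Prime).ne_zero
  induction S using Finset.induction_on with
  | empty =>
    refine RE_zero _ fun s hs => ?_
    simp
  | insert a S ha ih =>
    set c' : Fin (n + 1) → ℚ_[p] :=
      fun i => (if i ∈ S then (p : ℚ_[p]) ^ k i else 1) * c i with hc'
    have hc'0 : ∀ k, c' k ≠ 0 := by
      intro i
      rw [hc']
      beta_reduce
      refine mul_ne_zero ?_ (hc i)
      split_ifs
      · exact pow_ne_zero _ hp0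
      · exact one_ne_zero
    have h1 := dstep f d hf T0 μ hch a (k a) c' hc'0
    have h2 := RE.mul0 (p := p) (T0 := T0) (Reg.const (((qr p : ℝ) : ℂ) ^ (∑ i ∈ S, k i))) h1
    refine (ih.add h2).congr fun s hs => ?_
    have h4 : (fun i => (Function.update 1 a ((p : ℚ_[p]) ^ k a) : Fin (n + 1) → ℚ_[p]) i *
        c' i) = fun i => (if i ∈ insert a S then (p : ℚ_[p]) ^ k i else 1) * c i := by
      funext i
      rw [hc']
      beta_reduce
      by_cases h : i = a
      · rw [h, Function.update_self, if_neg ha, one_mul, if_pos (Finset.mem_insert_self _ _)]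
      · rw [Function.update_of_ne h, Pi.one_apply, one_mul]
        simp [Finset.mem_insert, h]
    rw [h4, Finset.sum_insert ha, pow_add]
    ring

/-- **The relation of two polydiscs.** -/
theorem dall (k : Fin (n + 1) → ℕ) (c : Fin (n + 1) → ℚ_[p]) (hc : ∀ k, c k ≠ 0) (K : ℕ)
    (hk : ∀ (j : ι) (x : Fin (n + 1) → ℚ_[p]),
      eval (fun i => (p : ℚ_[p]) ^ k i * x i) (f j) = (p : ℚ_[p]) ^ K * eval x (f j)) :
    RE p T0 μ (fun s => FF (scl c f) s - ((qr p : ℝ) : ℂ) ^ (∑ i, k i) *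
      (((tr' p s : ℝ) : ℂ) ^ K * FF (scl c f) s)) := by
  refine (dsteps f d hf T0 μ hch k Finset.univ c hc).congr fun s hs => ?_
  congr 2
  refine FF_of_eq _ _ _ (fun j x => ?_) s
  rw [eval_scl, eval_scl, ← hk j]
  congr 1
  congr 1
  funext i
  rw [if_pos (Finset.mem_univ i), mul_assoc]

end steps

theorem eval_wt {n : ℕ} (k : Fin (n + 1) → ℕ) (K : ℕ) (F : MvPolynomial (Fin (n + 1)) ℚ_[p])
    (h : ∀ m, coeff m F ≠ 0 → ∑ i, k i * m i = K) (x : Fin (n + 1) → ℚ_[p]) :
    eval (fun i => (p : ℚ_[p]) ^ k i * x i) F = (p : ℚ_[p]) ^ K * eval x F := by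
  rw [MvPolynomial.eval_eq', MvPolynomial.eval_eq', Finset.mul_sum]
  refine Finset.sum_congr rfl fun m hm => ?_
  have h1 : ∏ i, ((p : ℚ_[p]) ^ k i * x i) ^ m i = (p : ℚ_[p]) ^ K * ∏ i, x i ^ m i := by
    simp only [mul_pow, ← pow_mul]
    rw [Finset.prod_mul_distrib, Finset.prod_pow_eq_pow_sum, h m (mem_support_iff.1 hm)]
  rw [h1]
  ring

/-- **Semi-invariant cones.** -/
theorem torus_FR (n r d : ℕ) (hd : 0 < d) (f : Fin r → MvPolynomial (Fin (n + 1)) ℚ)
    (hf : ∀ j, (f j).IsHomogeneous d) (hv : SemiInv f) (m : ℂ → ℕ∞)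
    (h : ∀ (i : Fin (n + 1)) (c : Fin n → ℚ_[p]), (∀ k, c k ≠ 0) →
      FR p m (FF (scl c (fun j => dehK i (FamQ.toP p ⟨Fin (n + 1), Fin r, f⟩ j)))))
    (c : Fin (n + 1) → ℚ_[p]) (hc : ∀ k, c k ≠ 0) :
    FR p m (FF (scl c (FamQ.toP p ⟨Fin (n + 1), Fin r, f⟩))) := by
  classical
  set F := FamQ.toP p ⟨Fin (n + 1), Fin r, f⟩ with hF
  have hFh : ∀ j, (F j).IsHomogeneous d := fun j => (hf j).map _
  obtain ⟨a, e, ha, he, hm⟩ : ∃ (a : Fin (n + 1) → ℤ) (e : ℤ), ∑ l, a l = 0 ∧ 0 < e ∧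
      ∀ (j : Fin r) (m : Fin (n + 1) →₀ ℕ), coeff m (f j) ≠ 0 → ∑ l, a l * (m l : ℤ) = e := by
    obtain ⟨a, e, ha, he, hm⟩ := hv
    rcases lt_or_gt_of_ne he with h1 | h1
    · refine ⟨fun l => -a l, -e, ?_, by omega, fun j m hjm => ?_⟩
      · rw [Finset.sum_neg_distrib, ha, neg_zero]
      · rw [← hm j m hjm, ← Finset.sum_neg_distrib]
        refine Finset.sum_congr rfl fun l _ => ?_
        ring
    · exact ⟨a, e, ha, h1, hm⟩
  set N : ℕ := ∑ l, (a l).natAbs with hN
  have hNa : ∀ l, 0 ≤ (N : ℤ) + a l := by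
    intro l
    have h1 : (a l).natAbs ≤ N :=
      Finset.single_le_sum (f := fun l => (a l).natAbs) (fun _ _ => Nat.zero_le _)
        (Finset.mem_univ l)
    omega
  set k : Fin (n + 1) → ℕ := fun l => ((N : ℤ) + a l).toNat with hk
  have hkz : ∀ l, ((k l : ℕ) : ℤ) = N + a l := fun l => Int.toNat_of_nonneg (hNa l)
  have hksum : ∑ l, k l = N * (n + 1) := by
    have h1 : ((∑ l, k l : ℕ) : ℤ) = ((N * (n + 1) : ℕ) : ℤ) := by
      push_cast
      rw [Finset.sum_congr rfl fun l _ => hkz l, Finset.sum_add_distrib, ha, add_zero,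
        Finset.sum_const, Finset.card_univ, Fintype.card_fin, nsmul_eq_mul]
      push_cast
      ring
    exact_mod_cast h1
  set D : ℕ := e.toNat with hD
  have hDz : ((D : ℕ) : ℤ) = e := Int.toNat_of_nonneg he.le
  have hD0 : 0 < D := by omega
  intro T0 hT0
  have hch : ∀ c : Fin (n + 1) → ℚ_[p], (∀ k, c k ≠ 0) → ∀ i : Fin (n + 1),
      RE p T0 (Pool.Agent.Y230.PS.tr m T0) (FF (fun j => dehK i (scl c F j))) := by
    intro c hc i
    have h1 : RE p T0 (Pool.Agent.Y230.PS.tr m T0)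
        (FF (scl (fun k => c (i.succAbove k) / c i) (fun j => dehK i (F j)))) :=
      h i (fun k => c (i.succAbove k) / c i) (fun k => div_ne_zero (hc _) (hc _)) T0 hT0
    refine (RE.mul0 (reg_N hT0 _ (pow_ne_zero d (hc i))) h1).congr fun s hs => ?_
    rw [FF_deh_scl F d hFh c i (hc i) s]
  have h1 := dall F d hFh T0 _ hch (fun _ => 1) c hc d (fun j x => by
    simp only [pow_one]
    exact eval_hom (F j) d (hFh j) _ _)
  have h2 := dall F d hFh T0 _ hch k c hc (N * d + D) (fun j x => by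
    refine eval_wt k (N * d + D) (F j) (fun u hu => ?_) x
    have hu' : coeff u (f j) ≠ 0 := by
      intro h0
      apply hu
      change coeff u (map (algebraMap ℚ ℚ_[p]) (f j)) = 0
      rw [coeff_map, h0, map_zero]
    have h3 := hm j u hu'
    have h4 : ∑ i, u i = d := by
      have h5 := hf j hu'
      rw [Finsupp.weight_apply, Finsupp.sum_fintype _ _ (by simp)] at h5
      simpa using h5
    have h6 : ((∑ i, k i * u i : ℕ) : ℤ) = ((N * d + D : ℕ) : ℤ) := by
      push_cast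
      have h7 : ∀ i, (k i : ℤ) * (u i : ℤ) = N * (u i : ℤ) + a i * (u i : ℤ) := by
        intro i
        rw [hkz i]
        ring
      rw [Finset.sum_congr rfl fun i _ => h7 i, Finset.sum_add_distrib, h3, ← Finset.mul_sum, hDz]
      have h8 : ∑ i, (u i : ℤ) = d := by exact_mod_cast h4
      rw [h8]
    exact_mod_cast h6)
  rw [hksum] at h2
  have h3 : ∑ _i : Fin (n + 1), 1 = n + 1 := by simp
  rw [h3] at h1
  exact fin_rel n d N D hd hD0 hT0 _ h1 h2

end Pool.Agent.U334.TC
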