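import Pool.Agent.U334.TC.Leaf
import Pool.Agent.U334.TC.Tor
import Pool.Agent.N127.PP.Main
import Pool.Agent.U184.Sys

set_option autoImplicit false
set_option linter.unusedSectionVars false
set_option linter.unusedVariables false

/-! # The zeta functions of the class `PTW` over `ℚ_p` -/

namespace Pool.Agent.U334.TC

open MeasureTheory MvPolynomial Pool.Agent.W427.SMC Pool.Agent.Y230.PT Pool.Agent.Y230.PS
open Pool.Agent.Y230.TH Pool.Agent.R852.PP Pool.Agent.N127.PB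
open Pool.Agent.N127.PP hiding goodP_main ptp_main coreP coreP_Z mero_MZ mero_RZ mero_M mero_R
  poin_R poin_M
open scoped ENNReal
open Pool.Agent.Y230.RE Pool.Agent.W574.SM Pool.Agent.W574.CN
open Pool.Agent.W574.RO hiding dl
open Pool.Agent.U184 (WHForm NoField)

attribute [local instance] msZ bsZ

variable {p : ℕ} [Fact p.Prime]

/-- the additional conditions on the multiplicities -/
structure IsNew (p : ℕ) [Fact p.Prime] (strict : Bool) (mlt mref : FamQ → ℂ → ℕ∞) : Prop where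
  root : ∀ (r d : ℕ) (_ : 0 < d) (f : Fin r → MvPolynomial (Fin 3) ℚ)
    (_ : ∀ j, (f j).IsHomogeneous d)
    (_ : ∀ b : Polynomial ℂ, IsFunctionalEq (FamQ.toC ⟨Fin 3, Fin r, f⟩) b →
      b.eval (-((2 : ℕ) + 1 : ℂ) / d) = 0)
    (_ : strict = true → ∀ i : Fin 3, ∃ b : Polynomial ℂ,
      IsFunctionalEq (fun j => map (algebraMap ℚ ℂ) (dehQ i (f j))) b ∧
      b.eval (-((2 : ℕ) + 1 : ℂ) / d) ≠ 0),
    ∃ m : ℂ → ℕ∞, (∀ (i : Fin 3) (T : ℂ), 1 < ‖T‖ →
      mlt ⟨Fin 2, Fin r, fun j => dehQ i (f j)⟩ T ≤ m T) ∧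
      ∀ T : ℂ, 1 < ‖T‖ → (if T ^ d = (p : ℂ) ^ (2 + 1) then 1 else 0) + m T ≤
        mlt ⟨Fin 3, Fin r, f⟩ T
  deh : ∀ (n r d : ℕ) (f : Fin r → MvPolynomial (Fin (n + 1)) ℚ), (∀ j, (f j).IsHomogeneous d) →
    ∀ (i : Fin (n + 1)) (T : ℂ), mlt ⟨Fin n, Fin r, fun j => dehQ i (f j)⟩ T ≤
      mlt ⟨Fin (n + 1), Fin r, f⟩ T
  field : ∀ (r d : ℕ), 0 < d → ∀ f : Fin r → MvPolynomial (Fin 3) ℚ,
    (∀ j, (f j).IsHomogeneous d) → (∃ j, f j ≠ 0) →
    (HasField fun j => map (algebraMap ℚ ℂ) (f j)) →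
    ∀ c : Fin 3 → ℚ_[p], (∀ k, c k ≠ 0) → FR p (mlt ⟨Fin 3, Fin r, f⟩)
      (FF (scl c (FamQ.toP p ⟨Fin 3, Fin r, f⟩)))
  surf : ∀ (d : ℕ) (f : MvPolynomial (Fin 3) ℚ), WHForm (map (algebraMap ℚ ℂ) f) d →
    (d = 3 → ¬ NoField (map (algebraMap ℚ ℂ) f)) →
    (strict = true → NoField (map (algebraMap ℚ ℂ) f) → ChartsOff f d) →
    FR p (mref ⟨Fin 3, Fin 1, fun _ => f⟩) (FF (FamQ.toP p ⟨Fin 3, Fin 1, fun _ => f⟩))
  fieldS : ∀ (d : ℕ), 0 < d → ∀ f : MvPolynomial (Fin 3) ℚ, f.IsHomogeneous d → f ≠ 0 →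
    ¬ NoField (map (algebraMap ℚ ℂ) f) →
    FR p (mref ⟨Fin 3, Fin 1, fun _ => f⟩) (FF (FamQ.toP p ⟨Fin 3, Fin 1, fun _ => f⟩))

theorem isNew_M (hR : StR) : IsNew p true (mM p) (rG p (wM p)) where
  root := by
    classical
    intro r d hd f hf hroot hs
    have hs' := hs rfl
    refine ⟨fun T => if ((rr p T : ℝ) : ℂ) = -((2 : ℕ) + 1 : ℂ) / d then 0 else
      mM p ⟨Fin 3, Fin r, f⟩ T, fun i T hT => ?_, fun T hT => ?_⟩
    · beta_reduce
      split_ifs with hc
      · refine iSup_le fun k => ?_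
        obtain ⟨b, hb, hbe⟩ := hs' i
        have h1 := k.2 b hb
        have hk : (k : ℕ) = 0 := by
          by_contra hk
          apply hbe
          have h2 := (dvd_pow_self (Polynomial.X - Polynomial.C ((rr p T : ℝ) : ℂ)) hk).trans h1
          have h3 : b.eval ((rr p T : ℝ) : ℂ) = 0 := Polynomial.dvd_iff_isRoot.1 h2
          rwa [hc] at h3
        rw [hk]
        exact le_rfl
      · refine iSup_le fun k => ?_
        rw [le_mM]
        intro b hb
        apply k.2 b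
        have h3 := functionalEq_deh i (FamQ.toC ⟨Fin 3, Fin r, f⟩) d
          (fun j => (hf j).map _) b hb
        have h4 : FamQ.toC ⟨Fin 2, Fin r, fun j => dehQ i (f j)⟩ =
            fun j => deh i (FamQ.toC ⟨Fin 3, Fin r, f⟩ j) := by
          funext j
          exact map_dehC i (f j)
        rw [h4]
        exact h3
    · beta_reduce
      by_cases hT1 : T ^ d = (p : ℂ) ^ (2 + 1)
      · rw [if_pos hT1, if_pos (rr_cone 2 d hd T hT1), add_zero]
        have h1 : ((1 : ℕ) : ℕ∞) ≤ mM p ⟨Fin 3, Fin r, f⟩ T := by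
          rw [le_mM]
          intro b hb
          rw [pow_one, Polynomial.dvd_iff_isRoot, Polynomial.IsRoot.def, rr_cone 2 d hd T hT1]
          exact hroot b hb
        exact_mod_cast h1
      · rw [if_neg hT1, zero_add]
        split_ifs
        · exact bot_le
        · exact le_rfl
  deh := by
    classical
    intro n r d f hf i T
    refine iSup_le fun k => ?_
    rw [le_mM]
    intro b hb
    apply k.2 b
    have h3 := functionalEq_deh i (FamQ.toC ⟨Fin (n + 1), Fin r, f⟩) d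
      (fun j => (hf j).map _) b hb
    have h4 : FamQ.toC ⟨Fin n, Fin r, fun j => dehQ i (f j)⟩ =
        fun j => deh i (FamQ.toC ⟨Fin (n + 1), Fin r, f⟩ j) := by
      funext j
      exact map_dehC i (f j)
    rw [h4]
    exact h3
  field := fun r d hd f hf hne hv c hc => by
    rw [scl_eq]
    exact field_M r d hd f hf hne hv _ (det_diag_ne c hc)
  surf := fun d f hw h3 hs => by
    have h := surf_M (p := p) d f hw hR h3 (hs rfl) (fun _ => 1) fun _ => one_ne_zero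
    rwa [scl_one] at h
  fieldS := fun d hd f hf hne hv => by
    have h := field_ref (p := p) hR d hd f hf hne hv (Matrix.diagonal fun _ => 1)
      (det_diag_ne _ fun _ => one_ne_zero)
    rwa [← scl_eq, scl_one] at h

theorem isNew_R (hR : StR) : IsNew p false (mR p) (rG p (wR p)) where
  root := by
    classical
    intro r d hd f hf hroot hs
    refine ⟨mR p ⟨Fin 3, Fin r, f⟩, fun i T hT => ?_, fun T hT => ?_⟩
    · by_cases h1 : Forced (FamQ.toC ⟨Fin 3, Fin r, f⟩) ((rr p T : ℝ) : ℂ)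
      · rw [mR_top h1]
        exact le_top
      · have h2 : ¬ Forced (FamQ.toC ⟨Fin 2, Fin r, fun j => dehQ i (f j)⟩)
            ((rr p T : ℝ) : ℂ) := fun h2 => h1 fun b hb => by
          apply h2 b
          have h3 := functionalEq_deh i (FamQ.toC ⟨Fin 3, Fin r, f⟩) d
            (fun j => (hf j).map _) b hb
          have h4 : FamQ.toC ⟨Fin 2, Fin r, fun j => dehQ i (f j)⟩ =
              fun j => deh i (FamQ.toC ⟨Fin 3, Fin r, f⟩ j) := by
            funext j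
            exact map_dehC i (f j)
          rw [h4]
          exact h3
        rw [mR_zero h2]
        exact bot_le
    · by_cases h1 : Forced (FamQ.toC ⟨Fin 3, Fin r, f⟩) ((rr p T : ℝ) : ℂ)
      · rw [mR_top h1]
        exact le_top
      · have h3 : ¬ T ^ d = (p : ℂ) ^ (2 + 1) := by
          intro h3
          apply h1
          intro b hb
          rw [rr_cone 2 d hd T h3]
          exact hroot b hb
        rw [mR_zero h1, if_neg h3, zero_add]
  deh := by
    classical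
    intro n r d f hf i T
    by_cases h1 : Forced (FamQ.toC ⟨Fin (n + 1), Fin r, f⟩) ((rr p T : ℝ) : ℂ)
    · rw [mR_top h1]
      exact le_top
    · have h2 : ¬ Forced (FamQ.toC ⟨Fin n, Fin r, fun j => dehQ i (f j)⟩)
          ((rr p T : ℝ) : ℂ) := fun h2 => h1 fun b hb => by
        apply h2 b
        have h3 := functionalEq_deh i (FamQ.toC ⟨Fin (n + 1), Fin r, f⟩) d
          (fun j => (hf j).map _) b hb
        have h4 : FamQ.toC ⟨Fin n, Fin r, fun j => dehQ i (f j)⟩ =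
            fun j => deh i (FamQ.toC ⟨Fin (n + 1), Fin r, f⟩ j) := by
          funext j
          exact map_dehC i (f j)
        rw [h4]
        exact h3
      rw [mR_zero h2]
      exact bot_le
  field := fun r d hd f hf hne hv c hc => by
    rw [scl_eq]
    exact (field_M r d hd f hf hne hv _ (det_diag_ne c hc)).mono fun T _ => mM_le_mR _ hne T
  surf := fun d f hw h3 hs => by
    have h := surf_R (p := p) d f hw hR h3 (fun _ => 1) fun _ => one_ne_zero
    rwa [scl_one] at h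
  fieldS := fun d hd f hf hne hv => by
    have h := field_ref (p := p) hR d hd f hf hne hv (Matrix.diagonal fun _ => 1)
      (det_diag_ne _ fun _ => one_ne_zero)
    rw [← scl_eq, scl_one] at h
    exact h.mono fun T _ => iSup_mono fun k => wM_le T k

/-- ternary forms for which `-3 / d` is a root -/
theorem root_case {strict : Bool} {mlt mref : FamQ → ℂ → ℕ∞} (hM : IsMlt p strict mlt)
    (hN : IsNew p strict mlt mref) (r d : ℕ) (hd : 0 < d) (f : Fin r → MvPolynomial (Fin 3) ℚ)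
    (hf : ∀ j, (f j).IsHomogeneous d) (hne : ∃ j, f j ≠ 0)
    (hroot : ∀ b : Polynomial ℂ, IsFunctionalEq (FamQ.toC ⟨Fin 3, Fin r, f⟩) b →
      b.eval (-((2 : ℕ) + 1 : ℂ) / d) = 0)
    (hs : strict = true → ∀ i : Fin 3, ∃ b : Polynomial ℂ,
      IsFunctionalEq (fun j => map (algebraMap ℚ ℂ) (dehQ i (f j))) b ∧
      b.eval (-((2 : ℕ) + 1 : ℂ) / d) ≠ 0) :
    (∃ j, (FamQ.f ⟨Fin 3, Fin r, f⟩) j ≠ 0) ∧ ∀ c : Fin 3 → ℚ_[p], (∀ i, c i ≠ 0) →
      FR p (mlt ⟨Fin 3, Fin r, f⟩) (FF (scl c (FamQ.toP p ⟨Fin 3, Fin r, f⟩))) := by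
  refine ⟨hne, fun c hc' => ?_⟩
  obtain ⟨m, hm1, hm2⟩ := hN.root r d hd f hf hroot hs
  refine FR_cone (FamQ.toP p ⟨Fin (2 + 1), Fin r, f⟩) d hd (fun j => (hf j).map _) m _ hm2
    (fun i c' hc'' => ?_) c hc'
  have hch : ∃ j, dehQ i (f j) ≠ 0 := by
    obtain ⟨j, hj⟩ := hne
    exact ⟨j, dehQ_ne i (f j) d (hf j) hj⟩
  have h1 := ((good_main hM ⟨Fin 2, Fin r, fun j => dehQ i (f j)⟩
    (Good.plane r _ hch)).2 c' hc'').mono (hm1 i)
  have h2 : FamQ.toP p ⟨Fin 2, Fin r, fun j => dehQ i (f j)⟩ =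
      fun j => dehK i (FamQ.toP p ⟨Fin (2 + 1), Fin r, f⟩ j) := by
    funext j
    exact map_dehQ i (f j)
  rw [← h2]
  exact h1

/-- **The zeta functions of the ideals in the class**, on all polydiscs. -/
theorem goodW_main {strict : Bool} {mlt mref : FamQ → ℂ → ℕ∞} (hM : IsMlt p strict mlt)
    (hN : IsNew p strict mlt mref) (A : FamQ) (h : GoodW strict A) : (∃ j, A.f j ≠ 0) ∧ ∀ c : A.σ → ℚ_[p], (∀ i, c i ≠ 0) →
      FR p (mlt A) (FF (scl c (A.toP p))) := by
  classical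
  obtain ⟨φ⟩ := exists_emb p
  have hφ : φ.comp (algebraMap ℚ ℚ_[p]) = algebraMap ℚ ℂ := RingHom.ext_rat _ _
  induction h with
  | plane r f hf =>
    refine ⟨hf, fun c hc => ?_⟩
    refine FR_plane φ _ (scl_ne _ c hc (toP_ne ⟨Fin 2, Fin r, f⟩ hf)) _ fun T hT => ?_
    obtain ⟨b, hb0, hb, hm⟩ := hM.plane r f hf T hT
    refine ⟨b, hb0, ?_, hm⟩
    have h1 := functionalEq_scl (fun i => φ (c i)) (fun i => (map_ne_zero φ).2 (hc i)) _ b hb
    have h2 : (fun j => map φ (scl c (FamQ.toP p ⟨Fin 2, Fin r, f⟩) j)) =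
        fun j => sclC (fun i => φ (c i)) (FamQ.toC ⟨Fin 2, Fin r, f⟩ j) := by
      funext j
      have h3 : (map φ).comp ((aeval (fun i => C (c i) * X i) :
          MvPolynomial (Fin 2) ℚ_[p] →ₐ[ℚ_[p]] MvPolynomial (Fin 2) ℚ_[p]) :
            MvPolynomial (Fin 2) ℚ_[p] →+* MvPolynomial (Fin 2) ℚ_[p]) =
          (sclC (fun i => φ (c i)) : MvPolynomial (Fin 2) ℂ →+* MvPolynomial (Fin 2) ℂ).comp
            (map φ) := by
        apply MvPolynomial.ringHom_ext
        · intro a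
          simp [sclC]
        · intro k
          simp [sclC]
      have h4 := congrArg (fun ψ : MvPolynomial (Fin 2) ℚ_[p] →+* MvPolynomial (Fin 2) ℂ =>
        ψ (FamQ.toP p ⟨Fin 2, Fin r, f⟩ j)) h3
      refine Eq.trans h4 ?_
      change sclC _ (map φ (map (algebraMap ℚ ℚ_[p]) (f j))) = sclC _ (map (algebraMap ℚ ℂ) (f j))
      rw [map_map, hφ]
    rw [h2]
    exact h1
  | free A g h =>
    have hne : ∃ j, A.f j ≠ 0 := by
      by_contra h0
      push Not at h0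
      have : ∑ j, g j * A.f j = 0 := Finset.sum_eq_zero fun j _ => by rw [h0, mul_zero]
      rw [this] at h
      exact zero_ne_one h
    refine ⟨hne, fun c hc => ?_⟩
    set g' : A.ι → MvPolynomial A.σ ℚ_[p] := scl c fun j => map (algebraMap ℚ ℚ_[p]) (g j) with hg'
    obtain ⟨B, hB⟩ := (isCompact_range (sz_cont g')).bddAbove
    have hBx : ∀ x, sz g' x ≤ B := fun x => hB ⟨x, rfl⟩
    have hι : Nonempty A.ι := ⟨hne.choose⟩
    have hcard : (0 : ℝ) < Fintype.card A.ι := by exact_mod_cast Fintype.card_pos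
    have hkey : ∀ x, 1 ≤ (Fintype.card A.ι : ℝ) * (sz g' x * sz (scl c (A.toP p)) x) := by
      intro x
      have h1 := congrArg (fun q => eval (fun i => inc p (x i))
        (aeval (fun i => C (c i) * X i : A.σ → MvPolynomial A.σ ℚ_[p])
          (map (algebraMap ℚ ℚ_[p]) q))) h
      simp only [map_sum, map_mul, map_one] at h1
      have h2 : ‖(1 : ℚ_[p])‖ ≤ ∑ j : A.ι, sz g' x * sz (scl c (A.toP p)) x := by
        rw [← h1]
        refine (norm_sum_le _ _).trans (Finset.sum_le_sum fun j _ => ?_)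
        rw [norm_mul]
        refine mul_le_mul ?_ ?_ (norm_nonneg _) (sz_nonneg _ _)
        · exact norm_le_pi_norm (fun j => eval (fun i => inc p (x i)) (g' j)) j
        · exact norm_le_pi_norm (fun j => eval (fun i => inc p (x i)) (scl c (A.toP p) j)) j
      rwa [norm_one, Finset.sum_const, Finset.card_univ, nsmul_eq_mul] at h2
    have hB0 : 0 < B := by
      have h1 := hkey 0
      have h2 := hBx 0
      by_contra hn
      have h3 : sz g' 0 = 0 := le_antisymm (h2.trans (not_lt.1 hn)) (sz_nonneg _ _)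
      rw [h3, zero_mul, mul_zero] at h1
      linarith
    refine FR_free _ _ ((Fintype.card A.ι : ℝ) * B)⁻¹ (inv_pos.2 (mul_pos hcard hB0)) fun x => ?_
    rw [inv_le_iff_one_le_mul₀ (mul_pos hcard hB0)]
    refine (hkey x).trans ?_
    have h4 : sz g' x * sz (scl c (A.toP p)) x ≤ B * sz (scl c (A.toP p)) x :=
      mul_le_mul_of_nonneg_right (hBx x) (sz_nonneg _ _)
    nlinarith [mul_le_mul_of_nonneg_left h4 hcard.le]
  | sum A B hA hB ihA ihB =>
    refine ⟨sum_ne A B ihA.1, fun c hc => ?_⟩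
    rw [toP_sum, scl_sumK]
    exact FR_sumK _ _ _ _ _ (hM.sum A B) (ihA.2 _ fun i => hc _) (ihB.2 _ fun i => hc _)
  | mul A B hA hB ihA ihB =>
    refine ⟨mul_ne A B ihA.1 ihB.1, fun c hc => ?_⟩
    rw [toP_mul, scl_mulK]
    refine (FR.mul (ihA.2 (fun i => c (Sum.inl i)) fun i => hc _)
      (ihB.2 (fun i => c (Sum.inr i)) fun i => hc _)
      (fun T hT => hM.mul A B T hT ihA.1 ihB.1)).congr fun s hs => ?_
    rw [FF_mulK]
  | equiv A B i k h hA ihA =>
    refine ⟨equiv_ne A B i k h ihA.1, fun c hc => ?_⟩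
    refine ((ihA.2 (fun a => c (i a)) fun a => hc _).mono fun T hT =>
      hM.equiv A B i k h T hT).congr fun s hs => ?_
    rw [FF_equiv i k (scl (fun a => c (i a)) (A.toP p)) (scl c (B.toP p)) (fun j => ?_) s]
    change aeval _ (map (algebraMap ℚ ℚ_[p]) (B.f (k j))) = _
    rw [h, map_rename]
    exact scl_rename (ι := A.ι) (κ := A.ι) i c _
  | cone n r d hd f hf e he h hs ih =>
    refine ⟨det_ne f e he, fun c hc => ?_⟩
    obtain ⟨m, hm1, hm2⟩ := hM.cone n r d hd f hf e he hs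
    refine FR_cone (FamQ.toP p ⟨Fin (n + 1), Fin r, f⟩) d hd (fun j => (hf j).map _) m _ hm2
      (fun i c' hc' => ?_) c hc
    have h1 := ((ih i).2 c' hc').mono (hm1 i)
    have h2 : FamQ.toP p ⟨Fin n, Fin r, fun j => dehQ i (f j)⟩ =
        fun j => dehK i (FamQ.toP p ⟨Fin (n + 1), Fin r, f⟩ j) := by
      funext j
      exact map_dehQ i (f j)
    rw [← h2]
    exact h1
  | pencil r d hd f hf hc hs =>
    obtain ⟨j, hj⟩ := hc.exists_ne _ d
    exact root_case hM hN r d hd f hf ⟨j, fun h0 => hj (by rw [h0, map_zero])⟩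
      (fun b hb => root_toC r d hd f hf hc b hb) hs
  | sys r d hd f hf hc hs =>
    obtain ⟨j, hj⟩ := Pool.Agent.U184.nr_ne _ d hc
    refine root_case hM hN r d hd f hf ⟨j, fun h0 => hj (by
      change map (algebraMap ℚ ℂ) (f j) = 0
      rw [h0, map_zero])⟩ (fun b hb => ?_) hs
    have h := Pool.Agent.U184.root_nr_ideal _ d hd (fun j => (hf j).map _) b hb hc
    rw [← h]
    congr 1
    push_cast
    ring
  | tern d f hw hs =>
    obtain ⟨hd, hf, hne⟩ := hom_of f d hw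
    by_cases hn : Pool.Agent.U184.NoField (map (algebraMap ℚ ℂ) f)
    · exact root_case hM hN 1 d hd (fun _ => f) (fun _ => hf) ⟨0, hne⟩
        (fun b hb => root_tern f d hw hn b hb) (fun h => hs h hn)
    · exact ⟨⟨(0 : Fin 1), hne⟩, hN.field 1 d hd (fun _ => f) (fun _ => hf) ⟨0, hne⟩
        (hasField_of f hn)⟩
  | field r d hd f hf hne hv => exact ⟨hne, hN.field r d hd f hf hne hv⟩
  | torus n r d hd f hf hne hv h ih =>
    refine ⟨hne, fun c hc => torus_FR n r d hd f hf hv _ (fun i c' hc' => ?_) c hc⟩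
    have h1 := ((ih i).2 c' hc').mono (fun T _ => hN.deh n r d f hf i T)
    have h2 : FamQ.toP p ⟨Fin n, Fin r, fun j => dehQ i (f j)⟩ =
        fun j => dehK i (FamQ.toP p ⟨Fin (n + 1), Fin r, f⟩ j) := by
      funext j
      exact map_dehQ i (f j)
    rw [← h2]
    exact h1

/-- **The zeta functions of the class.** -/
theorem ptw_main {strict : Bool} {mlt mref : FamQ → ℂ → ℕ∞} (hM : IsMltP p strict mlt mref)
    (hN : IsNew p strict mlt mref) (c : Bool) (A : FamQ) (h : PTW strict c A) : (∃ j, A.f j ≠ 0) ∧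
      FR p (if c = true then mref A else mlt A) (Pool.Agent.Y230.PS.FF (A.toP p)) := by
  classical
  induction h with
  | good A h =>
    obtain ⟨h1, h2⟩ := goodW_main hM.base.base hN A h
    refine ⟨h1, ?_⟩
    have h3 := h2 (fun _ => 1) fun _ => one_ne_zero
    rw [scl_one] at h3
    simpa using h3
  | mono σ ι v =>
    refine ⟨⟨Classical.arbitrary ι, ?_⟩, by simpa using hM.mono σ ι v⟩
    change monomial (v _) (1 : ℚ) ≠ 0
    rw [Ne, monomial_eq_zero]
    exact one_ne_zero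
  | curve g hg => exact ⟨⟨(0 : Fin 1), hg⟩, by simpa using hM.base.curve g hg⟩
  | surf d f hw h3 hs =>
    exact ⟨⟨(0 : Fin 1), (hom_of f d hw).2.2⟩, by simpa using hN.surf d f hw h3 hs⟩
  | fieldS d hd f hf hne hv => exact ⟨⟨(0 : Fin 1), hne⟩, by simpa using hN.fieldS d hd f hf hne hv⟩
  | hyp A h ih =>
    refine ⟨ih.1, ?_⟩
    have h1 := ih.2
    simp only [if_true] at h1
    simpa using h1.mono (hM.base.hyp A)
  | pow σ g k hk h ih =>
    have hg : g ≠ 0 := by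
      obtain ⟨j, hj⟩ := ih.1
      exact hj
    refine ⟨⟨(0 : Fin 1), pow_ne_zero k hg⟩, ?_⟩
    have h1 := ih.2
    simp only [if_true] at h1
    rw [if_neg Bool.false_ne_true]
    exact pow_case hk (fun T => hM.pow σ g hg k hk T) (h1.mono (hM.base.hyp _))
  | sum A B hA hB ihA ihB =>
    refine ⟨sum_ne A B ihA.1, ?_⟩
    rw [toP_sum]
    have h1 := ihA.2
    have h2 := ihB.2
    simp only [Bool.false_eq_true, if_false] at h1 h2 ⊢
    exact FR_sumK _ _ _ _ _ (hM.base.base.sum A B) h1 h2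
  | mul c A B hA hB ihA ihB =>
    refine ⟨mul_ne A B ihA.1 ihB.1, ?_⟩
    rw [toP_mul]
    have h1 := ihA.2
    have h2 := ihB.2
    cases c
    · simp only [Bool.false_eq_true, if_false] at h1 h2 ⊢
      refine (FR.mul h1 h2 (fun T hT => hM.base.base.mul A B T hT ihA.1 ihB.1)).congr
        fun s hs => ?_
      rw [FF_mulK]
    · simp only [if_true] at h1 h2 ⊢
      refine (FR.mul h1 h2 (fun T hT => hM.base.mul A B T hT ihA.1 ihB.1)).congr fun s hs => ?_
      rw [FF_mulK]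
  | univ A hA ihA =>
    refine ⟨univ_ne A ihA.1, ?_⟩
    rw [toP_univ]
    have hι : Nonempty A.ι := ⟨ihA.1.choose⟩
    have h1 := ihA.2
    simp only [Bool.false_eq_true, if_false, if_true] at h1 ⊢
    exact FR_univK hι _ _ _ (fun T hT => hM.base.univ A T hT ihA.1) h1
  | form σ m r a hm ha h f hA ihA =>
    have hne : ∃ J, genP a h f J ≠ 0 := ihA.1
    obtain ⟨hh, hf⟩ := genQ_ne a h f ha hne
    refine ⟨⟨(0 : Fin 1), formP_ne a h f hne ha⟩, ?_⟩
    have h1 := ihA.2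
    simp only [Bool.false_eq_true, if_false, if_true] at h1 ⊢
    rw [genQ_toP] at h1
    rw [formQ_toP]
    exact FR_formK a (fun t => ⟨(hf t).choose⟩) _ _ _ _
      (fun T hT => hM.form σ m r a h f hm ha hne T hT) h1
  | ts A τ g hA hg ihA ihg =>
    have hg0 : g ≠ 0 := by
      obtain ⟨j, hj⟩ := ihg.1
      exact hj
    refine ⟨ts_ne A τ g hg0, ?_⟩
    rw [toP_ts]
    have hι : Nonempty A.ι := ⟨ihA.1.choose⟩
    have h1 := ihA.2
    have h2 := ihg.2
    simp only [Bool.false_eq_true, if_false, if_true] at h1 h2 ⊢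
    exact FR_ts Pool.Agent.Y287.TH.tZ _ _ _ _ _ (hM.base.ts A τ g ihA.1 hg0)
      (hM.base.one A τ g ihA.1 hg0) h1 h2
  | drop σ κ g h ih =>
    refine ⟨⟨(0 : Fin 1), fun h0 => ?_⟩, ?_⟩
    · obtain ⟨j, hj⟩ := ih.1
      apply hj
      have h1 : g = 0 := h0
      change rename Sum.inl g = 0
      rw [h1, map_zero]
    · have h1 := ih.2
      simp only [if_true] at h1 ⊢
      refine (h1.mono (hM.base.drop σ κ g)).congr fun s hs => ?_
      have h2 := FF_drop (κ := κ) (map (algebraMap ℚ ℚ_[p]) g) s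
      refine Eq.trans ?_ h2
      congr 1
      funext j
      exact map_rename _ _ _
  | equiv c A B i k h hA ihA =>
    refine ⟨equiv_ne A B i k h ihA.1, ?_⟩
    have h3 : ∀ s : ℝ, Pool.Agent.Y230.PS.FF (A.toP p) s = Pool.Agent.Y230.PS.FF (B.toP p) s :=
      fun s => by
      rw [FF_equiv i k (A.toP p) (B.toP p) (fun j => ?_) s]
      change map (algebraMap ℚ ℚ_[p]) (B.f (k j)) = _
      rw [h, map_rename]
      rfl
    have h1 := ihA.2
    cases c
    · simp only [Bool.false_eq_true, if_false] at h1 ⊢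
      exact (h1.mono fun T hT => hM.base.base.equiv A B i k h T hT).congr fun s hs => h3 s
    · simp only [if_true] at h1 ⊢
      exact (h1.mono fun T hT => hM.base.equiv A B i k h T hT).congr fun s hs => h3 s

section fin

variable {V : Type} [Fintype V]

theorem coreW {strict : Bool} {mlt mref : FamQ → ℂ → ℕ∞} (hM : IsMltP p strict mlt mref)
    (hN : IsNew p strict mlt mref) (F : MvPolynomial V ℚ) (hF : PTW strict false (hyp F)) :
    ∃ D P : Polynomial ℂ, D ≠ 0 ∧ (∀ s : ℝ, 0 ≤ s →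
      D.eval ((tr' p s : ℝ) : ℂ) * ((∫⁻ x : V → ℤ_[p], N p s (eval₂ (algebraMap ℚ ℚ_[p])
        (fun i => inc p (x i)) F) ∂(Measure.pi fun _ : V => mu p)).toReal : ℂ) =
          P.eval ((tr' p s : ℝ) : ℂ)) ∧
      ∀ T0, T0 ≠ 0 → (D.rootMultiplicity T0 : ℕ∞) ≤
        Pool.Agent.Y230.PS.tr (mlt (hyp F)) T0 := by
  obtain ⟨h1, h2⟩ := ptw_main hM hN false (hyp F) hF
  simp only [Bool.false_eq_true, if_false] at h2
  obtain ⟨D, P, hD, h3, h4⟩ := h2.rat
  refine ⟨D, P, hD, fun s hs => ?_, h4⟩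
  rw [← FF_hyp]
  exact h3 s hs

theorem coreW_Z {strict : Bool} {mlt mref : FamQ → ℂ → ℕ∞} (hM : IsMltP p strict mlt mref)
    (hN : IsNew p strict mlt mref) (F : MvPolynomial V ℤ) (hF : PTW strict false (hyp (map (Int.castRingHom ℚ) F))) :
    ∃ D P : Polynomial ℂ, D ≠ 0 ∧ (∀ s : ℝ, 0 ≤ s →
      D.eval ((tr' p s : ℝ) : ℂ) * ((∫⁻ x : V → ℤ_[p], tau p s (aeval x F)
        ∂(Measure.pi fun _ : V => mu p)).toReal : ℂ) = P.eval ((tr' p s : ℝ) : ℂ)) ∧
      ∀ T0, T0 ≠ 0 → (D.rootMultiplicity T0 : ℕ∞) ≤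
        Pool.Agent.Y230.PS.tr (mlt (hyp (map (Int.castRingHom ℚ) F))) T0 := by
  obtain ⟨D, P, hD, h2, h3⟩ := coreW hM hN _ hF
  refine ⟨D, P, hD, fun s hs => ?_, h3⟩
  rw [← h2 s hs]
  simp only [tau_N]

/-- **The orders of the poles are at most the multiplicities of the roots.** -/
theorem mero_MZ (F : MvPolynomial V ℤ)
    (hF : PTW true false (hyp (map (Int.castRingHom ℚ) F)))
    (b : Polynomial ℂ) (hb0 : b ≠ 0)
    (hb : Pool.Agent.H628R4.TP.IsBFunction (map (Int.castRingHom ℂ) F) b)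
    (Z : ℂ → ℂ) (hZ : MeromorphicOn Z Set.univ)
    (hZp : ∀ s : ℂ, 0 < s.re → Z s = igusaZeta p F s) (s₀ : ℂ) :
    ((-(b.rootMultiplicity (s₀.re : ℂ) : ℤ) : ℤ) : WithTop ℤ) ≤ meromorphicOrderAt Z s₀ := by
  obtain ⟨D, P, hD0, h1, h2⟩ := coreW_Z (p := p) isMltP_M (isNew_M Pool.Agent.Y465.TH.tR) F hF
  have h3 := mero_bound p D P hD0 Z hZ (fun s hs => by
    rw [pw_real, hZp s (by simpa using hs), igusaZeta_eq, h1 s hs.le]) s₀
  refine le_trans ?_ h3
  have h4 := mult_of_tr (p := p) (map (Int.castRingHom ℚ) F) b hb0 (by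
    rw [map_map]
    exact hb) _ _ (h2 (pw p s₀) (pw_ne_zero p s₀))
  have h5 : rr p (pw p s₀) = s₀.re := pw_norm p s₀
  rw [h5] at h4
  exact_mod_cast neg_le_neg (Int.ofNat_le.2 h4)

/-- **The real parts of the poles are roots.** -/
theorem mero_RZ (F : MvPolynomial V ℤ)
    (hF : PTW false false (hyp (map (Int.castRingHom ℚ) F)))
    (b : Polynomial ℂ) (hb : Pool.Agent.H628R4.TP.IsBFunction (map (Int.castRingHom ℂ) F) b)
    (Z : ℂ → ℂ) (hZ : MeromorphicOn Z Set.univ)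
    (hZp : ∀ s : ℂ, 0 < s.re → Z s = igusaZeta p F s) (s₀ : ℂ)
    (hs : meromorphicOrderAt Z s₀ < 0) : b.eval (s₀.re : ℂ) = 0 := by
  obtain ⟨D, P, hD0, h1, h2⟩ := coreW_Z (p := p) isMltP_R (isNew_R Pool.Agent.Y465.TH.tR) F hF
  have h3 := mero_bound p D P hD0 Z hZ (fun s hs => by
    rw [pw_real, hZp s (by simpa using hs), igusaZeta_eq, h1 s hs.le]) s₀
  have h5 : rr p (pw p s₀) = s₀.re := pw_norm p s₀
  rw [← h5]
  refine root_of_tr (map (Int.castRingHom ℚ) F) b ?_ _ (D.rootMultiplicity (pw p s₀))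
    (fun h0 => ?_) (h2 _ (pw_ne_zero p s₀))
  · rw [map_map]
    exact hb
  · rw [h0] at h3
    exact absurd (lt_of_le_of_lt h3 hs) (by simp)

theorem mero_M (F : MvPolynomial V ℚ) (hF : PTW true false (hyp F)) (b : Polynomial ℂ)
    (hb0 : b ≠ 0) (hb : Pool.Agent.H628R4.TP.IsBFunction (map (algebraMap ℚ ℂ) F) b)
    (Z : ℂ → ℂ) (hZ : MeromorphicOn Z Set.univ)
    (hZp : ∀ s : ℂ, 0 < s.re → Z s = zetaQ p F s) (s₀ : ℂ) :
    ((-(b.rootMultiplicity (s₀.re : ℂ) : ℤ) : ℤ) : WithTop ℤ) ≤ meromorphicOrderAt Z s₀ := by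
  obtain ⟨D, P, hD0, h1, h2⟩ := coreW (p := p) isMltP_M (isNew_M Pool.Agent.Y465.TH.tR) F hF
  have h3 := mero_bound p D P hD0 Z hZ (fun s hs => by
    rw [pw_real, hZp s (by simpa using hs), zetaQ_eq, h1 s hs.le]) s₀
  refine le_trans ?_ h3
  have h4 := mult_of_tr (p := p) F b hb0 hb _ _ (h2 (pw p s₀) (pw_ne_zero p s₀))
  have h5 : rr p (pw p s₀) = s₀.re := pw_norm p s₀
  rw [h5] at h4
  exact_mod_cast neg_le_neg (Int.ofNat_le.2 h4)

theorem mero_R (F : MvPolynomial V ℚ) (hF : PTW false false (hyp F)) (b : Polynomial ℂ)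
    (hb : Pool.Agent.H628R4.TP.IsBFunction (map (algebraMap ℚ ℂ) F) b)
    (Z : ℂ → ℂ) (hZ : MeromorphicOn Z Set.univ)
    (hZp : ∀ s : ℂ, 0 < s.re → Z s = zetaQ p F s) (s₀ : ℂ) (hs : meromorphicOrderAt Z s₀ < 0) :
    b.eval (s₀.re : ℂ) = 0 := by
  obtain ⟨D, P, hD0, h1, h2⟩ := coreW (p := p) isMltP_R (isNew_R Pool.Agent.Y465.TH.tR) F hF
  have h3 := mero_bound p D P hD0 Z hZ (fun s hs => by
    rw [pw_real, hZp s (by simpa using hs), zetaQ_eq, h1 s hs.le]) s₀
  have h5 : rr p (pw p s₀) = s₀.re := pw_norm p s₀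
  rw [← h5]
  refine root_of_tr F b hb _ (D.rootMultiplicity (pw p s₀)) (fun h0 => ?_)
    (h2 _ (pw_ne_zero p s₀))
  rw [h0] at h3
  exact absurd (lt_of_le_of_lt h3 hs) (by simp)

/-- the poles of the Poincare series -/
theorem poin_R (F : MvPolynomial V ℤ)
    (hF : PTW false false (hyp (map (Int.castRingHom ℚ) F)))
    (b : Polynomial ℂ) (hb : Pool.Agent.H628R4.TP.IsBFunction (map (Int.castRingHom ℂ) F) b) :
    ∃ Φ : RatFunc ℂ, ((Φ.denom : Polynomial ℂ) : PowerSeries ℂ) * poincare p F =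
        ((Φ.num : Polynomial ℂ) : PowerSeries ℂ) ∧
      ∀ T₀ : ℂ, Φ.denom.eval T₀ = 0 → b.eval ((-Real.log ‖T₀‖ / Real.log p : ℝ) : ℂ) = 0 := by
  obtain ⟨D, P, hD0, h1, h2⟩ := coreW_Z (p := p) isMltP_R (isNew_R Pool.Agent.Y465.TH.tR) F hF
  obtain ⟨Φ, h3, h4, h5⟩ := poincare_of p _ D P hD0 h1
  refine ⟨Φ, h3, fun T hT0 => ?_⟩
  have hd : Φ.denom ≠ 0 := Φ.denom_ne_zero
  have h6 : Φ.denom.rootMultiplicity T ≠ 0 := by
    rw [Ne, Polynomial.rootMultiplicity_eq_zero_iff]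
    intro h
    exact hd (h hT0)
  have hT : T ≠ 0 := by
    rintro rfl
    exact h6 h4
  refine root_of_tr (map (Int.castRingHom ℚ) F) b ?_ T (D.rootMultiplicity T) (fun h0 => ?_)
    (h2 T hT)
  · rw [map_map]
    exact hb
  · have := h5 T
    omega

/-- the orders of the poles of the Poincare series -/
theorem poin_M (F : MvPolynomial V ℤ)
    (hF : PTW true false (hyp (map (Int.castRingHom ℚ) F)))
    (b : Polynomial ℂ) (hb0 : b ≠ 0)
    (hb : Pool.Agent.H628R4.TP.IsBFunction (map (Int.castRingHom ℂ) F) b) :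
    ∃ Φ : RatFunc ℂ, ((Φ.denom : Polynomial ℂ) : PowerSeries ℂ) * poincare p F =
        ((Φ.num : Polynomial ℂ) : PowerSeries ℂ) ∧
      ∀ T₀ : ℂ, Φ.denom.rootMultiplicity T₀ ≤
        b.rootMultiplicity ((-Real.log ‖T₀‖ / Real.log p : ℝ) : ℂ) := by
  obtain ⟨D, P, hD0, h1, h2⟩ := coreW_Z (p := p) isMltP_M (isNew_M Pool.Agent.Y465.TH.tR) F hF
  obtain ⟨Φ, h3, h4, h5⟩ := poincare_of p _ D P hD0 h1
  refine ⟨Φ, h3, fun T => ?_⟩
  by_cases hT : T = 0
  · rw [hT, h4]
    exact Nat.zero_le _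
  · refine (h5 T).trans ?_
    exact mult_of_tr (p := p) (map (Int.castRingHom ℚ) F) b hb0 (by
      rw [map_map]
      exact hb) _ _ (h2 T hT)

end fin

end Pool.Agent.U334.TC
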