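import Pool.Agent.U334.TC.Lat
import Pool.Agent.U334.TC.Fe
import Pool.Agent.U334.TC.Defs
import Pool.Agent.U184.Zeta
import Pool.Agent.N127.PP.Main

set_option autoImplicit false
set_option linter.unusedSectionVars false
set_option linter.unusedVariables false

/-! # Ternary forms: the charts -/

namespace Pool.Agent.U334.TC

open MeasureTheory MvPolynomial Pool.Agent.W427.SMC Pool.Agent.Y230.PT Pool.Agent.Y230.PS
open Pool.Agent.Y230.TH Pool.Agent.R852.PP Pool.Agent.N127.PB Pool.Agent.N127.PP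
open scoped ENNReal
open Pool.Agent.Y230.RE Pool.Agent.W574.SM Pool.Agent.W574.CN
open Pool.Agent.W574.RO hiding dl
open Pool.Agent.U184 (WHForm NoField)

attribute [local instance] msZ bsZ

variable {p : ℕ} [Fact p.Prime]

section chart

variable {n : ℕ}

theorem map_dehK' (φ : ℚ_[p] →+* ℂ) (i : Fin (n + 1)) (q : MvPolynomial (Fin (n + 1)) ℚ_[p]) :
    map φ (dehK i q) = deh i (map φ q) := by
  have h3 : (map φ).comp
        ((dehK i : MvPolynomial (Fin (n + 1)) ℚ_[p] →ₐ[ℚ_[p]] MvPolynomial (Fin n) ℚ_[p]) :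
          MvPolynomial (Fin (n + 1)) ℚ_[p] →+* MvPolynomial (Fin n) ℚ_[p]) =
      ((deh i : MvPolynomial (Fin (n + 1)) ℂ →ₐ[ℂ] MvPolynomial (Fin n) ℂ) :
          MvPolynomial (Fin (n + 1)) ℂ →+* MvPolynomial (Fin n) ℂ).comp (map φ) := by
    apply MvPolynomial.ringHom_ext
    · intro a
      simp [dehK, deh]
    · intro k
      simp only [RingHom.comp_apply, map_X, RingHom.coe_coe]
      unfold dehK deh
      rw [aeval_X, aeval_X]
      induction k using Fin.succAboveCases i with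
      | x => rw [Fin.insertNth_apply_same, Fin.insertNth_apply_same, map_one]
      | p k => rw [Fin.insertNth_apply_succAbove, Fin.insertNth_apply_succAbove, map_X]
  exact congrArg (fun ψ : MvPolynomial (Fin (n + 1)) ℚ_[p] →+* MvPolynomial (Fin n) ℂ => ψ q) h3

theorem map_chart (φ : ℚ_[p] →+* ℂ) (r : ℕ) (f : Fin r → MvPolynomial (Fin (n + 1)) ℚ)
    (B : Matrix (Fin (n + 1)) (Fin (n + 1)) ℚ_[p]) (i : Fin (n + 1)) (j : Fin r) :
    map φ (dehK i (sbF B (FamQ.toP p ⟨Fin (n + 1), Fin r, f⟩) j)) =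
      deh i (sbm (B.map φ) (FamQ.toC ⟨Fin (n + 1), Fin r, f⟩ j)) := by
  have hφ : φ.comp (algebraMap ℚ ℚ_[p]) = algebraMap ℚ ℂ := RingHom.ext_rat _ _
  rw [map_dehK']
  congr 1
  unfold sbF
  rw [map_sbm]
  congr 1
  change map φ (map (algebraMap ℚ ℚ_[p]) (f j)) = map (algebraMap ℚ ℂ) (f j)
  rw [map_map, hφ]

theorem det_map (φ : ℚ_[p] →+* ℂ) (B : Matrix (Fin (n + 1)) (Fin (n + 1)) ℚ_[p])
    (hB : B.det ≠ 0) : (B.map φ).det ≠ 0 := by
  have h1 := φ.map_det B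
  rw [RingHom.mapMatrix_apply] at h1
  rw [← h1]
  exact (map_ne_zero φ).2 hB

theorem chart_fe (φ : ℚ_[p] →+* ℂ) (r d : ℕ) (f : Fin r → MvPolynomial (Fin (n + 1)) ℚ)
    (hf : ∀ j, (f j).IsHomogeneous d) (B : Matrix (Fin (n + 1)) (Fin (n + 1)) ℚ_[p])
    (hB : B.det ≠ 0) (i : Fin (n + 1)) (b : Polynomial ℂ)
    (hb : IsFunctionalEq (FamQ.toC ⟨Fin (n + 1), Fin r, f⟩) b) :
    IsFunctionalEq (fun j => map φ (dehK i (sbF B (FamQ.toP p ⟨Fin (n + 1), Fin r, f⟩) j))) b := by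
  have h1 := functionalEq_deh i (fun j => sbm (B.map φ) (FamQ.toC ⟨Fin (n + 1), Fin r, f⟩ j)) d
    (fun j => by
      unfold sbm
      have h := (show (FamQ.toC ⟨Fin (n + 1), Fin r, f⟩ j).IsHomogeneous d from
        (hf j).map _).aeval (fun i => ∑ k, C ((B.map φ) i k) * X k) (n := 1)
        (fun i => by
          refine MvPolynomial.IsHomogeneous.sum _ _ _ fun k _ => ?_
          have h1 := (MvPolynomial.isHomogeneous_C (Fin (n + 1)) ((B.map φ) i k)).mul
            (MvPolynomial.isHomogeneous_X ℂ k)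
          rwa [zero_add] at h1)
      rwa [one_mul] at h) b
    (functionalEq_sbm (B.map φ) (det_map φ B hB) _ b hb)
  have h2 : (fun j => map φ (dehK i (sbF B (FamQ.toP p ⟨Fin (n + 1), Fin r, f⟩) j))) =
      fun j => deh i (sbm (B.map φ) (FamQ.toC ⟨Fin (n + 1), Fin r, f⟩ j)) :=
    funext fun j => map_chart φ r f B i j
  rw [h2]
  exact h1

theorem chart_ne (φ : ℚ_[p] →+* ℂ) (r d : ℕ) (f : Fin r → MvPolynomial (Fin (n + 1)) ℚ)
    (hf : ∀ j, (f j).IsHomogeneous d) (hne : ∃ j, f j ≠ 0)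
    (B : Matrix (Fin (n + 1)) (Fin (n + 1)) ℚ_[p]) (hB : B.det ≠ 0) (i : Fin (n + 1)) :
    ∃ j, dehK i (sbF B (FamQ.toP p ⟨Fin (n + 1), Fin r, f⟩) j) ≠ 0 := by
  obtain ⟨j, hj⟩ := hne
  refine ⟨j, fun h0 => hj ?_⟩
  have h1 := map_chart φ r f B i j
  rw [h0, map_zero] at h1
  have h2 : sbm (B.map φ) (FamQ.toC ⟨Fin (n + 1), Fin r, f⟩ j) = 0 := by
    refine Pool.Agent.U184.deh_inj i (N := d) ?_ h1.symm
    unfold sbm
    have h := (show (FamQ.toC ⟨Fin (n + 1), Fin r, f⟩ j).IsHomogeneous d from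
        (hf j).map _).aeval (fun i => ∑ k, C ((B.map φ) i k) * X k) (n := 1)
        (fun i => by
          refine MvPolynomial.IsHomogeneous.sum _ _ _ fun k _ => ?_
          have h1 := (MvPolynomial.isHomogeneous_C (Fin (n + 1)) ((B.map φ) i k)).mul
            (MvPolynomial.isHomogeneous_X ℂ k)
          rwa [zero_add] at h1)
    rwa [one_mul] at h
  have hu : IsUnit (B.map φ).det := isUnit_iff_ne_zero.2 (det_map φ B hB)
  have h3 := congrArg (sbm (B.map φ)⁻¹) h2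
  rw [sbm_sbm, Matrix.mul_nonsing_inv _ hu, sbm_one, map_zero] at h3
  exact map_injective _ (algebraMap ℚ ℂ).injective (by rw [map_zero]; exact h3)

end chart

/-- the best functional equation -/
theorem best (A : FamQ) (hA : ∃ j, A.f j ≠ 0) (T : ℂ) : open Classical in
    ∃ b : Polynomial ℂ, b ≠ 0 ∧ IsFunctionalEq A.toC b ∧
      (b.rootMultiplicity ((rr p T : ℝ) : ℂ) : ℕ∞) ≤ mM p A T := by
  classical
  obtain ⟨b0, hb0, hfe⟩ := Pool.Agent.Y229.exists_fe A.toC (toC_ne A hA)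
  have hex : ∃ k, ∃ b : Polynomial ℂ, b ≠ 0 ∧ IsFunctionalEq A.toC b ∧
      b.rootMultiplicity ((rr p T : ℝ) : ℂ) = k := ⟨_, b0, hb0, hfe, rfl⟩
  obtain ⟨b, hb, hbe, hk⟩ := Nat.find_spec hex
  refine ⟨b, hb, hbe, ?_⟩
  rw [hk, le_mM]
  intro b' hb'
  by_cases h0 : b' = 0
  · rw [h0]
    exact dvd_zero _
  · rw [← Polynomial.le_rootMultiplicity_iff h0]
    exact Nat.find_min' hex ⟨b', h0, hb', rfl⟩

/-- **The charts of all linear changes of coordinates.** -/
theorem chart_M (φ : ℚ_[p] →+* ℂ) (r d : ℕ) (f : Fin r → MvPolynomial (Fin 3) ℚ)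
    (hf : ∀ j, (f j).IsHomogeneous d) (hne : ∃ j, f j ≠ 0) (B : Matrix (Fin 3) (Fin 3) ℚ_[p])
    (hB : B.det ≠ 0) (i : Fin 3) :
    FR p (mM p ⟨Fin 3, Fin r, f⟩)
      (FF (fun j => dehK i (sbF B (FamQ.toP p ⟨Fin 3, Fin r, f⟩) j))) := by
  classical
  refine FR_plane φ _ (chart_ne φ r d f hf hne B hB i) _ fun T hT => ?_
  obtain ⟨b, hb0, hb, hm⟩ := best (p := p) ⟨Fin 3, Fin r, f⟩ hne T
  exact ⟨b, hb0, chart_fe φ r d f hf B hB i b hb, hm⟩

/-- the bound at the points where the corrections agree -/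
theorem mM_le_rG (A : FamQ) (hA : ∃ j, A.f j ≠ 0) (T0 : ℂ)
    (hd : dl ((rr p T0 : ℝ) : ℂ) = dp p T0) : mM p A T0 ≤ rG p (wM p) A T0 := by
  classical
  obtain ⟨a, ha⟩ := mM_nat (p := p) A T0 hA
  have hFa : FK A ((rr p T0 : ℝ) : ℂ) a := le_mM.1 (le_of_eq ha.symm)
  rw [ha]
  by_cases ha0 : a ≤ dl ((rr p T0 : ℝ) : ℂ)
  · rcases Nat.eq_zero_or_pos a with h0 | h0
    · rw [h0]
      exact bot_le
    · have h1 : FK A ((rr p T0 : ℝ) : ℂ) (0 + dl ((rr p T0 : ℝ) : ℂ)) := by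
        refine hFa.mono ?_
        unfold dl
        split_ifs
        · omega
        · omega
      refine le_trans ?_ (le_rG (w := wM p) h1)
      unfold wM
      rw [← hd]
      exact_mod_cast (by omega : a ≤ 0 + dl ((rr p T0 : ℝ) : ℂ))
  · have h1 : FK A ((rr p T0 : ℝ) : ℂ) ((a - dl ((rr p T0 : ℝ) : ℂ)) +
        dl ((rr p T0 : ℝ) : ℂ)) := hFa.mono (by omega)
    refine le_trans ?_ (le_rG (w := wM p) h1)
    unfold wM
    rw [← hd]
    exact_mod_cast (by omega : a ≤ a - dl ((rr p T0 : ℝ) : ℂ) + dl ((rr p T0 : ℝ) : ℂ))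

/-- **The charts, the refined bound.** -/
theorem chart_ref (hR : StR) (φ : ℚ_[p] →+* ℂ) (d : ℕ) (f : MvPolynomial (Fin 3) ℚ)
    (hf : f.IsHomogeneous d) (hne : f ≠ 0) (B : Matrix (Fin 3) (Fin 3) ℚ_[p])
    (hB : B.det ≠ 0) (i : Fin 3) :
    FR p (rG p (wM p) ⟨Fin 3, Fin 1, fun _ => f⟩)
      (FF (fun j => dehK i (sbF B (FamQ.toP p ⟨Fin 3, Fin 1, fun _ => f⟩) j))) := by
  classical
  set A : FamQ := ⟨Fin 3, Fin 1, fun _ => f⟩ with hA
  have hAne : ∃ j, A.f j ≠ 0 := ⟨(0 : Fin 1), hne⟩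
  have hgood := chart_M φ 1 d (fun _ => f) (fun _ => hf) ⟨0, hne⟩ B hB i
  intro T0 hT0
  obtain ⟨M, hM1, hM2⟩ := hgood T0 hT0
  by_cases hT1 : ‖T0‖ ≤ 1
  · refine ⟨M, ?_, hM2⟩
    unfold Pool.Agent.Y230.PS.tr at hM1 ⊢
    rw [if_pos hT1] at hM1 ⊢
    exact hM1
  · have hT : 1 < ‖T0‖ := not_le.1 hT1
    unfold Pool.Agent.Y230.PS.tr at hM1 ⊢
    rw [if_neg hT1] at hM1 ⊢
    by_cases hd : dl ((rr p T0 : ℝ) : ℂ) = dp p T0
    · exact ⟨M, hM1.trans (mM_le_rG A hAne T0 hd), hM2⟩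
    · have hdl : dl ((rr p T0 : ℝ) : ℂ) = 1 ∧ dp p T0 = 0 := by
        have h1 := dp_le (p := p) T0
        have h2 : dl ((rr p T0 : ℝ) : ℂ) ≤ 1 := by
          unfold dl
          split_ifs
          · exact le_rfl
          · exact Nat.zero_le _
        omega
      have hr : ((rr p T0 : ℝ) : ℂ) = -1 := by
        by_contra h
        have := hdl.1
        rw [dl_eq, if_neg h] at this
        omega
      have hne' : T0 ≠ (p : ℂ) := by
        intro h
        have := hdl.2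
        rw [dp_eq, if_pos h] at this
        omega
      set g := dehK i (sbF B (FamQ.toP p A) (0 : Fin 1)) with hg
      have hfam : (fun j => dehK i (sbF B (FamQ.toP p A) j)) = fun _ : Fin 1 => g := by
        funext j
        rw [Subsingleton.elim j (0 : Fin 1)]
      have hgK : g ≠ 0 := by
        obtain ⟨j, hj⟩ := chart_ne φ 1 d (fun _ => f) (fun _ => hf) ⟨0, hne⟩ B hB i
        rw [Subsingleton.elim j (0 : Fin 1)] at hj
        exact hj
      rw [hfam]
      rcases hR p φ g hgK T0 (rr_norm T0 hT hr) hne' with h | ⟨h, h2⟩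
      · exact ⟨0, by rw [Nat.cast_zero]; exact bot_le, h.congr fun s hs => ZI_FF _ s hs⟩
      · refine ⟨1, ?_, h.congr fun s hs => ZI_FF _ s hs⟩
        have h3 : FK A ((rr p T0 : ℝ) : ℂ) (1 + dl ((rr p T0 : ℝ) : ℂ)) := by
          intro b hb
          rw [hdl.1, hr]
          refine h2 b ?_
          have h4 := chart_fe φ 1 d (fun _ => f) (fun _ => hf) B hB i b hb
          have h5 : (fun j => map φ (dehK i (sbF B (FamQ.toP p ⟨Fin 3, Fin 1, fun _ => f⟩) j))) =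
              fun _ : Fin 1 => mp φ g := by
            funext j
            rw [Subsingleton.elim j (0 : Fin 1)]
            rfl
          rwa [h5] at h4
        refine le_trans ?_ (le_rG (w := wM p) h3)
        unfold wM
        rw [hdl.2]

end Pool.Agent.U334.TC
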